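import Pool.Agent.J4H69.K1.Asm

set_option autoImplicit false

/-!
From the reciprocal of the Gamma function to the Gamma function.
-/

namespace Pool.Agent.J4H69.K1

open Filter Topology Set Metric

/-- inverting some of the variables -/
lemma pinvert {σ : Type} [Fintype σ] (p : σ → Prop) [DecidablePred p] (P : MvPolynomial σ ℂ)
    (hP : P ≠ 0) : ∃ P' : MvPolynomial σ ℂ, P' ≠ 0 ∧ ∀ y y' : σ → ℂ,
      (∀ s, p s → y' s * y s = 1) → (∀ s, ¬ p s → y' s = y s) →
      MvPolynomial.eval y P = 0 → MvPolynomial.eval y' P' = 0 := by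
  classical
  set N := P.totalDegree with hN
  have hle : ∀ m ∈ P.support, ∀ s, m s ≤ N := by
    intro m hm s
    have h1 : (m.sum fun _ e => e) ≤ N := MvPolynomial.le_totalDegree hm
    by_cases hs : s ∈ m.support
    · exact (Finset.single_le_sum (f := fun s => m s) (fun _ _ => Nat.zero_le _) hs).trans h1
    · rw [Finsupp.notMem_support_iff.1 hs]
      exact Nat.zero_le _
  set φ : (σ →₀ ℕ) → (σ →₀ ℕ) := fun m =>
    Finsupp.equivFunOnFinite.symm (fun s => if p s then N - m s else m s) with hφ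
  have hφs : ∀ m s, φ m s = if p s then N - m s else m s := fun m s => by
    simp only [hφ, Finsupp.coe_equivFunOnFinite_symm]
  have hφi : ∀ m ∈ P.support, ∀ m' ∈ P.support, φ m = φ m' → m = m' := by
    intro m hm m' hm' h
    ext s
    have h1 := DFunLike.congr_fun h s
    rw [hφs, hφs] at h1
    have h2 := hle m hm s
    have h3 := hle m' hm' s
    by_cases hs : p s
    · rw [if_pos hs, if_pos hs] at h1
      omega
    · rw [if_neg hs, if_neg hs] at h1
      exact h1
  refine ⟨∑ m ∈ P.support, MvPolynomial.monomial (φ m) (P.coeff m), ?_, ?_⟩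
  · intro h0
    obtain ⟨m₀, hm₀⟩ := MvPolynomial.ne_zero_iff.1 hP
    have hm₀' : m₀ ∈ P.support := MvPolynomial.mem_support_iff.2 hm₀
    have h1 := congrArg (MvPolynomial.coeff (φ m₀)) h0
    rw [MvPolynomial.coeff_sum, MvPolynomial.coeff_zero, Finset.sum_eq_single m₀] at h1
    · rw [MvPolynomial.coeff_monomial, if_pos rfl] at h1
      exact hm₀ h1
    · intro m hm hne
      rw [MvPolynomial.coeff_monomial, if_neg]
      intro h
      exact hne (hφi m hm m₀ hm₀' h)
    · intro h
      exact absurd hm₀' h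
  · intro y y' h1 h1' h0
    have key : MvPolynomial.eval y' (∑ m ∈ P.support, MvPolynomial.monomial (φ m) (P.coeff m)) =
        (∏ s, if p s then y' s ^ N else 1) * MvPolynomial.eval y P := by
      rw [map_sum]
      conv_rhs => rw [P.as_sum, map_sum, Finset.mul_sum]
      refine Finset.sum_congr rfl fun m hm => ?_
      rw [MvPolynomial.eval_monomial, MvPolynomial.eval_monomial,
        Finsupp.prod_fintype _ _ (fun i => pow_zero _), Finsupp.prod_fintype _ _ (fun i => pow_zero _)]
      have h2 : ∏ s, y' s ^ (φ m) s = (∏ s, if p s then y' s ^ N else 1) * ∏ s, y s ^ m s := by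
        rw [← Finset.prod_mul_distrib]
        refine Finset.prod_congr rfl fun s _ => ?_
        rw [hφs]
        by_cases hs : p s
        · rw [if_pos hs, if_pos hs]
          have h3 := hle m hm s
          have h4 : y' s ^ N = y' s ^ (N - m s) * y' s ^ m s := by
            rw [← pow_add]
            congr 1
            omega
          rw [h4, mul_assoc, ← mul_pow, h1 s hs, one_pow, mul_one]
        · rw [if_neg hs, if_neg hs, h1' s hs, one_mul]
      rw [h2]
      ring
    rw [key, h0, mul_zero]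

variable {D : Set ℂ} {f : Fin 3 → ℂ → ℂ} (hD : IsOpen D) (hp : IsPreconnected D)
  (hf : ∀ i, AnalyticOnNhd ℂ (f i) D)
  (hpair : ∀ i j : Fin 3, i ≠ j → ∀ P : MvPolynomial (Fin 2) ℂ, P ≠ 0 →
    ∃ t ∈ D, MvPolynomial.eval ![f i t, f j t] P ≠ 0)

include hD hp hf hpair in
/-- the functions `rg f_i` do not vanish identically -/
lemma y_notMem (i : Fin 3) : (MvPolynomial.X (Sum.inr i) : Pol) ∉ rel D f := by
  intro h
  obtain ⟨t₀, ht₀, hder⟩ := exists_deriv hD hp hf hpair i
  have h1 : HasStrictDerivAt (f i) (deriv (f i) t₀) t₀ := (hf i t₀ ht₀).hasStrictDerivAt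
  have h2 : ∀ᶠ t in 𝓝 t₀, rg (f i t) = 0 := by
    filter_upwards [hD.mem_nhds ht₀] with t ht
    have := h t ht
    rw [MvPolynomial.eval_X] at this
    exact this
  have h3 : ∀ᶠ w in 𝓝 (f i t₀), rg w = 0 := by
    rw [← h1.map_nhds_eq hder]
    exact h2
  have h4 : rg = fun _ => 0 := by
    refine AnalyticOnNhd.eq_of_eventuallyEq (z₀ := f i t₀) (fun w _ => rg_diff.analyticAt w)
      (fun w _ => analyticAt_const) h3
  have h5 := congrFun h4 1
  simp [rg] at h5

include hD hp hf hpair in
/-- the same for the Gamma function -/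
theorem four_gam {m : ℕ} {e : Fin m → Fin 3 ⊕ Fin 3} (he : Indep (rel D f) e)
    (P : MvPolynomial (Fin m) ℂ) (hP : P ≠ 0) :
    ∃ t ∈ D, (∀ i, ∀ k : ℕ, f i t ≠ -k) ∧
      MvPolynomial.eval (fun k => Sum.elim (fun i => f i t) (fun i => Complex.Gamma (f i t)) (e k)) P ≠ 0 := by
  classical
  have hne : D.Nonempty := by
    obtain ⟨t, ht, -⟩ := hpair 0 1 (by decide) 1 one_ne_zero
    exact ⟨t, ht⟩
  have hI := rel_prime hD hp hne hf
  obtain ⟨P', hP', hev⟩ := pinvert (fun k => (e k).isRight = true) P hP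
  have h1 : MvPolynomial.rename e P' ∉ rel D f := fun h => hP' (he P' h)
  have h2 : MvPolynomial.rename e P' * ∏ i : Fin 3, (MvPolynomial.X (Sum.inr i) : Pol) ∉ rel D f := by
    intro h
    rcases hI.mem_or_mem h with h | h
    · exact h1 h
    · obtain ⟨i, -, hi⟩ := (hI.prod_mem_iff).1 h
      exact y_notMem hD hp hf hpair i hi
  rw [mem_rel] at h2
  push Not at h2
  obtain ⟨t, ht, h3⟩ := h2
  rw [map_mul, map_prod] at h3
  have h4 : ∀ i : Fin 3, rg (f i t) ≠ 0 := by
    intro i
    have h5 := Finset.prod_ne_zero_iff.1 (right_ne_zero_of_mul h3) i (Finset.mem_univ _)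
    rw [MvPolynomial.eval_X] at h5
    exact h5
  have h5 := left_ne_zero_of_mul h3
  refine ⟨t, ht, ?_, ?_⟩
  · intro i k hk
    apply h4 i
    rw [rg, inv_eq_zero, Complex.Gamma_eq_zero_iff]
    exact ⟨k, hk⟩
  · intro h6
    apply h5
    rw [MvPolynomial.eval_rename]
    refine hev _ _ ?_ ?_ h6
    · intro s hs
      obtain ⟨i, hi⟩ := Sum.isRight_iff.1 hs
      simp only [Function.comp_apply, hi, Sum.elim_inr, env]
      have h7 := h4 i
      rw [rg, Ne, inv_eq_zero] at h7
      rw [rg]
      exact inv_mul_cancel₀ h7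
    · intro s hs
      obtain ⟨i, hi⟩ := Sum.isLeft_iff.1 (by
        rw [Bool.not_eq_true, Sum.isRight_eq_false] at hs
        exact hs)
      simp only [Function.comp_apply, hi, Sum.elim_inl, env]

end Pool.Agent.J4H69.K1
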