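import Pool.Agent.J4H69.K1.Tex

set_option autoImplicit false

/-!
Algebra modulo the ideal of relations.
-/

namespace Pool.Agent.J4H69.K1

open Filter Topology Set Metric
open scoped Polynomial

/-- `rename s` as a ring homomorphism -/
noncomputable abbrev rn {m : ℕ} (s : Fin m → Fin 3 ⊕ Fin 3) : MvPolynomial (Fin m) ℂ →+* Pol :=
  (MvPolynomial.rename s : MvPolynomial (Fin m) ℂ →ₐ[ℂ] Pol).toRingHom

lemma rename_cons {m : ℕ} (s : Fin m → Fin 3 ⊕ Fin 3) (v : Fin 3 ⊕ Fin 3)
    (P : MvPolynomial (Fin (m + 1)) ℂ) :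
    MvPolynomial.rename (Fin.cons v s : Fin (m + 1) → Fin 3 ⊕ Fin 3) P =
      ((MvPolynomial.finSuccEquiv ℂ m P).map (rn s)).eval (MvPolynomial.X v) := by
  induction P using MvPolynomial.induction_on with
  | C a =>
    have h1 : MvPolynomial.finSuccEquiv ℂ m (MvPolynomial.C a) = Polynomial.C (MvPolynomial.C a) := by
      rw [MvPolynomial.finSuccEquiv_apply, MvPolynomial.eval₂Hom_C]
      rfl
    rw [h1, MvPolynomial.rename_C]
    simp
  | add p q hp hq => simp only [map_add, hp, hq, Polynomial.map_add, Polynomial.eval_add]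
  | mul_X p i hp =>
    rw [map_mul, hp, map_mul, Polynomial.map_mul, Polynomial.eval_mul, MvPolynomial.rename_X]
    congr 1
    refine Fin.cases ?_ (fun i => ?_) i
    · rw [MvPolynomial.finSuccEquiv_X_zero]
      simp
    · rw [MvPolynomial.finSuccEquiv_X_succ]
      simp

/-- the element `v` is transcendental over the variables `s` -/
def Trs {m : ℕ} (I : Ideal Pol) (s : Fin m → Fin 3 ⊕ Fin 3) (v : Fin 3 ⊕ Fin 3) : Prop :=
  ∀ E : Polynomial (MvPolynomial (Fin m) ℂ), (∃ l, MvPolynomial.rename s (E.coeff l) ∉ I) →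
    (E.map (rn s)).eval (MvPolynomial.X v) ∉ I

lemma indep_ne {m : ℕ} {I : Ideal Pol} {s : Fin m → Fin 3 ⊕ Fin 3} (hs : Indep I s)
    {E : Polynomial (MvPolynomial (Fin m) ℂ)} (hE : E ≠ 0) :
    ∃ l, MvPolynomial.rename s (E.coeff l) ∉ I := by
  by_contra hcon
  push Not at hcon
  apply hE
  ext1 l
  rw [Polynomial.coeff_zero]
  exact hs _ (hcon l)

lemma indep_cons {m : ℕ} {I : Ideal Pol} {s : Fin m → Fin 3 ⊕ Fin 3} {v : Fin 3 ⊕ Fin 3}
    (hs : Indep I s) (hv : Trs I s v) : Indep I (Fin.cons v s : Fin (m + 1) → Fin 3 ⊕ Fin 3) := by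
  intro P hP
  rw [rename_cons] at hP
  by_contra hP0
  have hE : MvPolynomial.finSuccEquiv ℂ m P ≠ 0 := by
    intro h
    exact hP0 ((map_eq_zero_iff _ (MvPolynomial.finSuccEquiv ℂ m).injective).1 h)
  exact hv _ (indep_ne hs hE) hP

lemma indep_perm {m : ℕ} {I : Ideal Pol} {s : Fin m → Fin 3 ⊕ Fin 3} (hs : Indep I s)
    (π : Fin m ≃ Fin m) : Indep I (s ∘ π) := by
  intro P hP
  have h1 : MvPolynomial.rename s (MvPolynomial.rename π P) ∈ I := by
    rw [MvPolynomial.rename_rename]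
    exact hP
  have h2 := hs _ h1
  exact (map_eq_zero_iff _ (MvPolynomial.rename_injective _ π.injective)).1 h2

/-- the image of a variable in the quotient -/
noncomputable def vq (I : Ideal Pol) (σ : Fin 3 ⊕ Fin 3) : Pol ⧸ I :=
  Ideal.Quotient.mkₐ ℂ I (MvPolynomial.X σ)

lemma mk_supported {I : Ideal Pol} {S : Set (Fin 3 ⊕ Fin 3)} {P : Pol}
    (hP : P ∈ MvPolynomial.supported ℂ S) :
    Ideal.Quotient.mkₐ ℂ I P ∈ Algebra.adjoin ℂ (vq I '' S) := by
  have h1 : (Algebra.adjoin ℂ (MvPolynomial.X '' S)).map (Ideal.Quotient.mkₐ ℂ I) =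
      Algebra.adjoin ℂ (vq I '' S) := by
    rw [AlgHom.map_adjoin, ← image_comp]
    rfl
  rw [← h1]
  exact ⟨P, hP, rfl⟩

lemma exists_supported {I : Ideal Pol} {S : Set (Fin 3 ⊕ Fin 3)} {a : Pol ⧸ I}
    (ha : a ∈ Algebra.adjoin ℂ (vq I '' S)) :
    ∃ P ∈ MvPolynomial.supported ℂ S, Ideal.Quotient.mkₐ ℂ I P = a := by
  have h1 : (Algebra.adjoin ℂ (MvPolynomial.X '' S)).map (Ideal.Quotient.mkₐ ℂ I) =
      Algebra.adjoin ℂ (vq I '' S) := by
    rw [AlgHom.map_adjoin, ← image_comp]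
    rfl
  rw [← h1] at ha
  obtain ⟨P, hP, rfl⟩ := ha
  exact ⟨P, hP, rfl⟩

lemma mk_zero {I : Ideal Pol} {P : Pol} : Ideal.Quotient.mkₐ ℂ I P = 0 ↔ P ∈ I :=
  Ideal.Quotient.eq_zero_iff_mem

/-- a relation makes the variable algebraic -/
lemma alg_of_rel {I : Ideal Pol} {S : Set (Fin 3 ⊕ Fin 3)} {τ : Fin 3 ⊕ Fin 3} {E : Pol[X]}
    (h1 : ∀ l, E.coeff l ∈ MvPolynomial.supported ℂ S) (h2 : ∃ l, E.coeff l ∉ I)
    (h3 : E.eval (MvPolynomial.X τ) ∈ I) : IsAlgebraic (Algebra.adjoin ℂ (vq I '' S)) (vq I τ) := by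
  classical
  set c : ℕ → Algebra.adjoin ℂ (vq I '' S) := fun l => ⟨_, mk_supported (I := I) (h1 l)⟩ with hc
  refine ⟨∑ l ∈ Finset.range (E.natDegree + 1), Polynomial.monomial l (c l), ?_, ?_⟩
  · obtain ⟨l, hl⟩ := h2
    intro h
    have h4 := congrArg (fun p => Polynomial.coeff p l) h
    simp only [Polynomial.finsetSum_coeff, Polynomial.coeff_monomial, Polynomial.coeff_zero] at h4
    have hle : l ∈ Finset.range (E.natDegree + 1) := by
      rw [Finset.mem_range]
      by_contra hcon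
      apply hl
      rw [Polynomial.coeff_eq_zero_of_natDegree_lt (by omega)]
      exact I.zero_mem
    rw [Finset.sum_ite_eq' (Finset.range (E.natDegree + 1)) l c, if_pos hle] at h4
    apply hl
    rw [← mk_zero]
    exact congrArg Subtype.val h4
  · rw [map_sum]
    have h5 : Ideal.Quotient.mkₐ ℂ I (E.eval (MvPolynomial.X τ)) = 0 := mk_zero.2 h3
    rw [Polynomial.eval_eq_sum_range, map_sum] at h5
    rw [← h5]
    refine Finset.sum_congr rfl fun l _ => ?_
    rw [Polynomial.aeval_monomial, map_mul, map_pow]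
    rfl

/-- an algebraic variable satisfies a relation -/
lemma rel_of_alg {I : Ideal Pol} {S : Set (Fin 3 ⊕ Fin 3)} {τ : Fin 3 ⊕ Fin 3}
    (h : IsAlgebraic (Algebra.adjoin ℂ (vq I '' S)) (vq I τ)) :
    ∃ E : Pol[X], (∀ l, E.coeff l ∈ MvPolynomial.supported ℂ S) ∧ (∃ l, E.coeff l ∉ I) ∧
      E.eval (MvPolynomial.X τ) ∈ I := by
  classical
  obtain ⟨p, hp, hp0⟩ := h
  choose c hc1 hc2 using fun l => exists_supported (I := I) (p.coeff l).2
  have hco : ∀ l, (∑ l ∈ Finset.range (p.natDegree + 1), Polynomial.monomial l (c l)).coeff l =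
      if l ∈ Finset.range (p.natDegree + 1) then c l else 0 := by
    intro l
    simp only [Polynomial.finsetSum_coeff, Polynomial.coeff_monomial]
    rw [Finset.sum_ite_eq' (Finset.range (p.natDegree + 1)) l c]
  refine ⟨∑ l ∈ Finset.range (p.natDegree + 1), Polynomial.monomial l (c l), ?_, ?_, ?_⟩
  · intro l
    rw [hco]
    split_ifs
    · exact hc1 l
    · exact Subalgebra.zero_mem _
  · refine ⟨p.natDegree, ?_⟩
    rw [hco, if_pos (by simp)]
    intro h1
    rw [← mk_zero, hc2] at h1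
    have h2 : p.coeff p.natDegree = 0 := Subtype.ext h1
    exact hp (Polynomial.leadingCoeff_eq_zero.1 h2)
  · rw [← mk_zero, Polynomial.eval_finsetSum, map_sum]
    rw [Polynomial.aeval_eq_sum_range] at hp0
    rw [← hp0]
    refine Finset.sum_congr rfl fun l _ => ?_
    rw [Polynomial.eval_monomial, map_mul, map_pow, hc2, Algebra.smul_def]
    rfl

/-- a polynomial in the variables `s` -/
lemma exists_rename {m : ℕ} {s : Fin m → Fin 3 ⊕ Fin 3} (hs : Function.Injective s) {P : Pol}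
    (hP : P ∈ MvPolynomial.supported ℂ (range s)) : ∃ P', MvPolynomial.rename s P' = P :=
  MvPolynomial.exists_rename_eq_of_vars_subset_range P s hs (MvPolynomial.mem_supported.1 hP)

lemma rename_supported {m : ℕ} (s : Fin m → Fin 3 ⊕ Fin 3) (P : MvPolynomial (Fin m) ℂ) :
    MvPolynomial.rename s P ∈ MvPolynomial.supported ℂ (range s) := by
  classical
  rw [MvPolynomial.mem_supported]
  intro σ hσ
  have h1 := MvPolynomial.vars_rename s P hσ
  obtain ⟨i, -, rfl⟩ := Finset.mem_image.1 h1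
  exact mem_range_self i

/-- if the variable `v` is algebraic over `s`, where `s` is injective, it is not transcendental over `s` -/
lemma not_trs_of_alg {m : ℕ} {I : Ideal Pol} {s : Fin m → Fin 3 ⊕ Fin 3}
    (hs : Function.Injective s) {v : Fin 3 ⊕ Fin 3}
    (h : IsAlgebraic (Algebra.adjoin ℂ (vq I '' range s)) (vq I v)) : ¬ Trs I s v := by
  classical
  obtain ⟨E, h1, ⟨l, hl⟩, h3⟩ := rel_of_alg h
  choose c hc using fun l => exists_rename hs (h1 l)
  intro hT
  set E' : Polynomial (MvPolynomial (Fin m) ℂ) :=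
    ∑ l ∈ Finset.range (E.natDegree + 1), Polynomial.monomial l (c l) with hE'
  have hco : ∀ l, l ∈ Finset.range (E.natDegree + 1) → E'.coeff l = c l := by
    intro l hl
    simp only [hE', Polynomial.finsetSum_coeff, Polynomial.coeff_monomial]
    rw [Finset.sum_ite_eq' (Finset.range (E.natDegree + 1)) l c, if_pos hl]
  have hle : l ∈ Finset.range (E.natDegree + 1) := by
    rw [Finset.mem_range]
    by_contra hcon
    apply hl
    rw [Polynomial.coeff_eq_zero_of_natDegree_lt (by omega)]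
    exact I.zero_mem
  refine hT E' ⟨l, ?_⟩ ?_
  · rw [hco l hle, hc]
    exact hl
  · have h4 : E'.map (rn s) = E := by
      have h5 : E'.map (rn s) = ∑ l ∈ Finset.range (E.natDegree + 1),
          Polynomial.monomial l (E.coeff l) := by
        rw [hE', Polynomial.map_sum]
        refine Finset.sum_congr rfl fun l _ => ?_
        rw [Polynomial.map_monomial]
        congr 1
        exact hc l
      rw [h5]
      exact (E.as_sum_range).symm
    rw [h4]
    exact h3

/-- a variable which is not transcendental over `s` is algebraic -/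
lemma alg_of_not_trs {m : ℕ} {I : Ideal Pol} {s : Fin m → Fin 3 ⊕ Fin 3} {v : Fin 3 ⊕ Fin 3}
    (h : ¬ Trs I s v) : IsAlgebraic (Algebra.adjoin ℂ (vq I '' range s)) (vq I v) := by
  unfold Trs at h
  push Not at h
  obtain ⟨E, ⟨l, hl⟩, h3⟩ := h
  refine alg_of_rel (E := E.map (rn s)) (fun l => ?_) ⟨l, ?_⟩ h3
  · rw [Polynomial.coeff_map]
    exact rename_supported s _
  · rw [Polynomial.coeff_map]
    exact hl

end Pool.Agent.J4H69.K1
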