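import Pool.Agent.J4H69.K1.Main

set_option autoImplicit false

/-!
Assembly, second part: four independent functions.
-/

namespace Pool.Agent.J4H69.K1

open Filter Topology Set Metric
open scoped Polynomial

lemma reorder {i j k : Fin 3} (hij : i ≠ j) (hik : i ≠ k) (hjk : j ≠ k) {P : MvPolynomial (Fin 3) ℂ}
    (hP : P ≠ 0) : ∃ P' : MvPolynomial (Fin 3) ℂ, P' ≠ 0 ∧
      MvPolynomial.rename (Fin.cons (Sum.inl i) ![Sum.inl j, Sum.inl k] : Fin 3 → Fin 3 ⊕ Fin 3) P' =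
        MvPolynomial.rename Sum.inl P := by
  set π := Equiv.ofBijective _ (bij3 hij hik hjk) with hπ
  refine ⟨MvPolynomial.rename π.symm P, ?_, ?_⟩
  · exact fun h => hP ((map_eq_zero_iff _ (MvPolynomial.rename_injective _ π.symm.injective)).1 h)
  · rw [MvPolynomial.rename_rename]
    congr 2
    have e : (Fin.cons (Sum.inl i) ![Sum.inl j, Sum.inl k] : Fin 3 → Fin 3 ⊕ Fin 3) =
        Sum.inl ∘ ![i, j, k] := by
      funext k
      fin_cases k <;> rfl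
    rw [e, Function.comp_assoc]
    have : (![i, j, k] : Fin 3 → Fin 3) ∘ π.symm = id := by
      funext k
      exact π.apply_symm_apply k
    rw [this]
    rfl

lemma relE {i j k : Fin 3} (hij : i ≠ j) (hik : i ≠ k) (hjk : j ≠ k) {P : MvPolynomial (Fin 3) ℂ}
    (hP : P ≠ 0) : ∃ E : Polynomial (MvPolynomial (Fin 2) ℂ), E ≠ 0 ∧
      (E.map (rn (![Sum.inl j, Sum.inl k] : Fin 2 → Fin 3 ⊕ Fin 3))).eval (MvPolynomial.X (Sum.inl i)) =
        MvPolynomial.rename Sum.inl P := by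
  obtain ⟨P', h1, h2⟩ := reorder hij hik hjk hP
  refine ⟨MvPolynomial.finSuccEquiv ℂ 2 P', ?_, ?_⟩
  · exact fun h => h1 ((map_eq_zero_iff _ (MvPolynomial.finSuccEquiv ℂ 2).injective).1 h)
  · rw [← h2, ← rename_cons]

lemma pderiv_zero {S : Set (Fin 3 ⊕ Fin 3)} {R : Pol} (hR : R ∈ MvPolynomial.supported ℂ S)
    {τ : Fin 3 ⊕ Fin 3} (h : τ ∉ S) : MvPolynomial.pderiv τ R = 0 :=
  MvPolynomial.pderiv_eq_zero_of_notMem_vars fun h' => h (MvPolynomial.mem_supported.1 hR h')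

/-- MIN for a polynomial relation -/
lemma min_rel (hMIN : S_MIN) {I : Ideal Pol} (hI : I.IsPrime) {m : ℕ} {s : Fin m → Fin 3 ⊕ Fin 3}
    (hs : Indep I s) {v : Fin 3 ⊕ Fin 3} (hv : v ∉ range s) {E : Polynomial (MvPolynomial (Fin m) ℂ)}
    (hE : E ≠ 0) (hEI : (E.map (rn s)).eval (MvPolynomial.X v) ∈ I) :
    ∃ R ∈ I, R ∈ MvPolynomial.supported ℂ (insert v (range s)) ∧ MvPolynomial.pderiv v R ∉ I := by
  refine hMIN I hI (range s) v hv ⟨E.map (rn s), fun l => ?_, ?_, hEI⟩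
  · rw [Polynomial.coeff_map]
    exact rename_supported s _
  · obtain ⟨l, hl⟩ := indep_ne hs hE
    refine ⟨l, ?_⟩
    rw [Polynomial.coeff_map]
    exact hl

/-- an irreducible relation between the `z_i` -/
lemma exists_Q0 {I : Ideal Pol} (hI : I.IsPrime) {P : MvPolynomial (Fin 3) ℂ} (hP : P ≠ 0)
    (hPI : MvPolynomial.rename Sum.inl P ∈ I) : ∃ Q₀ : MvPolynomial (Fin 3) ℂ, Irreducible Q₀ ∧
      MvPolynomial.rename Sum.inl Q₀ ∈ I := by
  set J : Ideal (MvPolynomial (Fin 3) ℂ) := I.comap (rn Sum.inl) with hJ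
  have hJp : J.IsPrime := Ideal.IsPrime.comap _
  have hJ0 : J ≠ ⊥ := by
    intro h
    have h1 : P ∈ J := hPI
    rw [h] at h1
    exact hP h1
  obtain ⟨Q₀, h1, h2⟩ := hJp.exists_mem_prime_of_ne_bot hJ0
  exact ⟨Q₀, h2.irreducible, h1⟩

lemma degreeOf_ne {I : Ideal Pol} {i j k : Fin 3} (hij : i ≠ j) (hik : i ≠ k) (hjk : j ≠ k)
    (hI : Indep I (![Sum.inl i, Sum.inl k] : Fin 2 → Fin 3 ⊕ Fin 3)) {Q : MvPolynomial (Fin 3) ℂ}
    (hQ : Irreducible Q) (hQI : MvPolynomial.rename Sum.inl Q ∈ I) : Q.degreeOf j ≠ 0 := by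
  classical
  rw [← MvPolynomial.mem_vars_iff_degreeOf_ne_zero]
  by_contra hcon
  have inj2 : Function.Injective (![i, k] : Fin 2 → Fin 3) := by
    intro x y hxy
    fin_cases x <;> fin_cases y <;> simp_all
  obtain ⟨Q', hQ'⟩ := MvPolynomial.exists_rename_eq_of_vars_subset_range Q (![i, k] : Fin 2 → Fin 3)
    inj2 (by
      intro l hl
      rcases range_inl hij hik hjk l with rfl | rfl | rfl
      · exact ⟨0, rfl⟩
      · exact absurd hl hcon
      · exact ⟨1, rfl⟩)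
  have h1 : MvPolynomial.rename (![Sum.inl i, Sum.inl k] : Fin 2 → Fin 3 ⊕ Fin 3) Q' ∈ I := by
    have e : (![Sum.inl i, Sum.inl k] : Fin 2 → Fin 3 ⊕ Fin 3) = Sum.inl ∘ ![i, k] := by
      funext l
      fin_cases l <;> rfl
    rw [e, ← MvPolynomial.rename_rename, hQ']
    exact hQI
  have h2 := hI Q' h1
  rw [h2, map_zero] at hQ'
  exact hQ.ne_zero hQ'.symm

/-- near some value of `z_i` the set is a finite union of graphs -/
lemma fin_loc (hLOC : S_LOC) (hTRD : S_TRD) (hMIN : S_MIN) (hFIN : S_FIN) {I : Ideal Pol}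
    (hI : I.IsPrime) (hno : ∀ e : Fin 4 → Fin 3 ⊕ Fin 3, ¬ Indep I e)
    {P : MvPolynomial (Fin 3) ℂ} (hP : P ≠ 0) (hPI : MvPolynomial.rename Sum.inl P ∈ I)
    (hpI : ∀ i j : Fin 3, i ≠ j → Indep I (![Sum.inl i, Sum.inl j] : Fin 2 → Fin 3 ⊕ Fin 3))
    {T : Set (Fin 3 → ℂ)} (hT : Good T)
    (hTI : ∀ z ∈ T, ∀ R ∈ I, MvPolynomial.eval (env rg z) R = 0)
    {i j k : Fin 3} (hij : i ≠ j) (hik : i ≠ k) (hjk : j ≠ k)
    (hTr : Trs I (Sum.inl : Fin 3 → Fin 3 ⊕ Fin 3) (Sum.inr i)) : ∃ w₀, Loc T i w₀ := by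
  have hz := indep_zzy (hpI i j hij) hTr
  have hz' := indep_zzy (hpI i k hik) hTr
  obtain ⟨hA, hN⟩ := hTRD I hI 3 hno _ hz
  obtain ⟨hA', -⟩ := hTRD I hI 3 hno _ hz'
  obtain ⟨Q₀, hQ1, hQ2⟩ := exists_Q0 hI hP hPI
  -- the polynomial Q
  obtain ⟨E, hE0, hE⟩ := relE hij hik hjk hP
  obtain ⟨Q, hQI, hQS, hQd⟩ := min_rel hMIN hI (hpI j k hjk) (v := Sum.inl i) (by
    rintro ⟨l, hl⟩
    fin_cases l
    · exact hij (Sum.inl_injective hl).symm
    · exact hik (Sum.inl_injective hl).symm) hE0 (by rw [hE]; exact hPI)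
  -- the polynomial R for y_j and for y_k
  obtain ⟨E₁, hE₁0, hE₁⟩ := hA (MvPolynomial.X (Sum.inr j))
  obtain ⟨R, hRI, hRS, hRd⟩ := min_rel hMIN hI hz (v := Sum.inr j) (by
    rintro ⟨l, hl⟩
    fin_cases l
    · exact absurd hl (by simp)
    · exact absurd hl (by simp)
    · exact hij (Sum.inr_injective hl)) hE₁0 hE₁
  obtain ⟨E₂, hE₂0, hE₂⟩ := hA (MvPolynomial.X (Sum.inr k))
  obtain ⟨R', hRI', hRS', hRd'⟩ := min_rel hMIN hI hz (v := Sum.inr k) (by
    rintro ⟨l, hl⟩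
    fin_cases l
    · exact absurd hl (by simp)
    · exact absurd hl (by simp)
    · exact hik (Sum.inr_injective hl)) hE₂0 hE₂
  obtain ⟨U, hU, hUne, hacc, C₁, hC₁, hfin⟩ := hFIN T I hT hI hTI i j k hij hik hjk hA hA' hN Q₀ hQ1 hQ2
    (degreeOf_ne hij hik hjk (hpI i k hik) hQ1 hQ2)
    (degreeOf_ne hik hij hjk.symm (hpI i j hij) hQ1 hQ2)
    Q R R' hQI hRI hRI'
    (fun l => pderiv_zero hQS (by
      rintro (h | ⟨l', h⟩)
      · exact absurd h (by simp)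
      · fin_cases l' <;> exact absurd h (by simp)))
    (pderiv_zero hRS (by
      rintro (h | ⟨l', h⟩)
      · exact hjk (Sum.inr_injective h).symm
      · fin_cases l'
        · exact absurd h (by simp)
        · exact absurd h (by simp)
        · exact hik (Sum.inr_injective h)))
    (pderiv_zero hRS' (by
      rintro (h | ⟨l', h⟩)
      · exact hjk (Sum.inr_injective h)
      · fin_cases l'
        · exact absurd h (by simp)
        · exact absurd h (by simp)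
        · exact hij (Sum.inr_injective h)))
    hQd hRd hRd'
  obtain ⟨w₀, -, h⟩ := hLOC 3 T i U hT hU hUne hacc C₁ hC₁ hfin
  exact ⟨w₀, h⟩

lemma third : ∀ a b : Fin 3, ∃ c : Fin 3, a ≠ c ∧ b ≠ c := by decide

/-- four of the functions `f_i`, `rg f_i` are algebraically independent -/
theorem four_rg (hLOC : S_LOC) (hDEP : S_DEP) (hTRD : S_TRD) (hMIN : S_MIN) (hFIN : S_FIN)
    {D : Set ℂ} {f : Fin 3 → ℂ → ℂ} (hD : IsOpen D) (hp : IsPreconnected D)
    (hf : ∀ i, AnalyticOnNhd ℂ (f i) D)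
    (hpair : ∀ i j : Fin 3, i ≠ j → ∀ P : MvPolynomial (Fin 2) ℂ, P ≠ 0 →
      ∃ t ∈ D, MvPolynomial.eval ![f i t, f j t] P ≠ 0) :
    ∃ e : Fin 4 → Fin 3 ⊕ Fin 3, Indep (rel D f) e := by
  by_contra hno
  push Not at hno
  obtain ⟨t₀, ht₀, hder⟩ := exists_deriv hD hp hf hpair 0
  have hI := rel_prime hD hp ⟨t₀, ht₀⟩ hf
  by_cases h3 : Indep (rel D f) (Sum.inl : Fin 3 → Fin 3 ⊕ Fin 3)
  · obtain ⟨j, hj⟩ := trs_triple hD hp hf hpair
    exact hno _ (indep_cons h3 hj)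
  · obtain ⟨a, b, hab, hTa, hTb⟩ := two_trs hD hp hf hpair h3
    obtain ⟨c, hac, hbc⟩ := third a b
    have hP : ∃ P : MvPolynomial (Fin 3) ℂ, P ≠ 0 ∧ MvPolynomial.rename Sum.inl P ∈ rel D f := by
      unfold Indep at h3
      push Not at h3
      obtain ⟨P, h1, h2⟩ := h3
      exact ⟨P, h2, h1⟩
    obtain ⟨P, hP, hPI⟩ := hP
    obtain ⟨T, hT, hTI, hTf⟩ := exists_T hD hf ht₀ hder
    have hpI : ∀ i j : Fin 3, i ≠ j →
        Indep (rel D f) (![Sum.inl i, Sum.inl j] : Fin 2 → Fin 3 ⊕ Fin 3) :=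
      fun i j hij => pair_indep hpair hij
    obtain ⟨w₀, hw₀⟩ := fin_loc hLOC hTRD hMIN hFIN hI hno hP hPI hpI hT hTI hab hac hbc hTa
    obtain ⟨s₀, hs₀⟩ := fin_loc hLOC hTRD hMIN hFIN hI hno hP hPI hpI hT hTI hab.symm hbc hac hTb
    obtain ⟨E, hE0, hE⟩ := relE (i := c) (j := a) (k := b) hac.symm hbc.symm hab hP
    obtain ⟨P₂, hP₂, hz⟩ := hDEP T a b c hab hac hbc hT w₀ s₀ hw₀ hs₀ E hE0 (by
      intro z hz
      have h1 := hTI z hz _ hPI
      rw [← hE, eval_map_rn, env_pair] at h1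
      exact h1)
    obtain ⟨t, ht, hne⟩ := hpair a b hab P₂ hP₂
    apply hne
    have hE2 : MvPolynomial.rename (![Sum.inl a, Sum.inl b] : Fin 2 → Fin 3 ⊕ Fin 3) P₂ ∈ rel D f := by
      have h5 : ∀ᶠ t in 𝓝 t₀, MvPolynomial.eval (env rg fun i => f i t)
          (MvPolynomial.rename (![Sum.inl a, Sum.inl b] : Fin 2 → Fin 3 ⊕ Fin 3) P₂) = 0 := by
        filter_upwards [hTf] with t ht
        rw [MvPolynomial.eval_rename]
        have h6 := hz _ ht
        have e := env_pair (fun i => f i t) a b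
        have e' : (env rg fun i => f i t) ∘ (![Sum.inl a, Sum.inl b] : Fin 2 → Fin 3 ⊕ Fin 3) =
            ![f a t, f b t] := e
        rw [e']
        exact h6
      intro t ht
      exact (env_an hf _).eqOn_zero_of_preconnected_of_eventuallyEq_zero hp ht₀ h5 ht
    have h7 := rename_mem_rel.1 hE2 t ht
    rw [env_pair] at h7
    exact h7

end Pool.Agent.J4H69.K1
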