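import Pool.Agent.J4H69.K1.Stm

set_option autoImplicit false

/-!
The maximum principle with boundary (a variant of `AX/Max.lean`).
-/

namespace Pool.Agent.J4H69.K1.Mb

open Filter Topology Set Metric
open Pool.Agent.J4H69.AX (HasDisc q pr q_sub q_nonneg q_eq_zero q_cont pr_self pr_diff)

variable {n : ℕ}

/-- restrictions of functions holomorphic on the open set `O` -/
def EA (O K : Set (Fin n → ℂ)) : Subalgebra ℂ C(K, ℂ) where
  carrier := {a | ∃ h : (Fin n → ℂ) → ℂ, DifferentiableOn ℂ h O ∧ ∀ z : K, a z = h z}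
  mul_mem' := by
    rintro a b ⟨h, h1, h2⟩ ⟨k, k1, k2⟩
    exact ⟨fun z => h z * k z, h1.mul k1, fun z => by rw [ContinuousMap.mul_apply, h2, k2]⟩
  add_mem' := by
    rintro a b ⟨h, h1, h2⟩ ⟨k, k1, k2⟩
    exact ⟨fun z => h z + k z, h1.add k1, fun z => by rw [ContinuousMap.add_apply, h2, k2]⟩
  algebraMap_mem' := by
    intro r
    exact ⟨fun _ => r, differentiableOn_const _, fun z => by simp⟩

/-- their uniform limits -/
noncomputable def UA (O K : Set (Fin n → ℂ)) [CompactSpace K] : Subalgebra ℂ C(K, ℂ) :=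
  (EA O K).topologicalClosure

lemma entire_mem {O K : Set (Fin n → ℂ)} [CompactSpace K] {h : (Fin n → ℂ) → ℂ}
    (hh : Differentiable ℂ h) : (⟨fun z : K => h z, by
      exact hh.continuous.comp continuous_subtype_val⟩ : C(K, ℂ)) ∈ UA O K :=
  (EA O K).le_topologicalClosure ⟨h, hh.differentiableOn, fun _ => rfl⟩

lemma hol {O K : Set (Fin n → ℂ)} (hO : IsOpen O) (hKO : K ⊆ O) [CompactSpace K] {a : C(K, ℂ)}
    (ha : a ∈ UA O K)
    {φ : ℂ → (Fin n → ℂ)} (hφ : AnalyticAt ℂ φ 0) (hK : ∀ᶠ s in 𝓝 (0 : ℂ), φ s ∈ K) :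
    ∃ b : ℂ → ℂ, (∀ᶠ s in 𝓝 (0 : ℂ), DifferentiableAt ℂ b s) ∧
      ∀ᶠ s in 𝓝 (0 : ℂ), ∀ h : φ s ∈ K, b s = a ⟨φ s, h⟩ := by
  classical
  obtain ⟨ρ, hρ, hball⟩ := Metric.eventually_nhds_iff_ball.1 (hφ.eventually_analyticAt.and hK)
  have ha' : a ∈ closure (EA O K : Set C(K, ℂ)) := ha
  obtain ⟨u, hu, hlim⟩ := mem_closure_iff_seq_limit.1 ha'
  choose h h1 h2 using hu
  set b : ℂ → ℂ := fun s => if hs : φ s ∈ K then a ⟨φ s, hs⟩ else 0 with hb
  have hbK : ∀ s, ∀ hs : φ s ∈ K, b s = a ⟨φ s, hs⟩ := by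
    intro s hs
    simp only [hb, hs, dite_true]
  have hunif : TendstoLocallyUniformlyOn (fun k s => h k (φ s)) b atTop (ball (0 : ℂ) ρ) := by
    apply TendstoUniformlyOn.tendstoLocallyUniformlyOn
    rw [Metric.tendstoUniformlyOn_iff]
    intro η hη
    filter_upwards [(Metric.tendsto_nhds.1 hlim) η hη] with k hk s hs
    have hsK := (hball s hs).2
    rw [hbK s hsK, ← h2 k ⟨φ s, hsK⟩, dist_comm]
    exact (ContinuousMap.dist_apply_le_dist (f := u k) (g := a) ⟨φ s, hsK⟩).trans_lt hk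
  have hdiff : DifferentiableOn ℂ b (ball (0 : ℂ) ρ) := by
    refine hunif.differentiableOn (Eventually.of_forall fun k s hs => ?_) isOpen_ball
    have h3 : DifferentiableAt ℂ (h k) (φ s) :=
      (h1 k).differentiableAt (hO.mem_nhds (hKO (hball s hs).2))
    exact (h3.comp s (hball s hs).1.differentiableAt).differentiableWithinAt
  refine ⟨b, ?_, ?_⟩
  · filter_upwards [isOpen_ball.mem_nhds (mem_ball_self hρ)] with s hs
    exact hdiff.differentiableAt (isOpen_ball.mem_nhds hs)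
  · exact Eventually.of_forall fun s hs => hbK s hs

/-- at a point on a disc there is no maximum -/
lemma no_max {O K : Set (Fin n → ℂ)} (hO : IsOpen O) (hKO : K ⊆ O) [CompactSpace K] {a : C(K, ℂ)}
    (ha : a ∈ UA O K) {ε : ℝ}
    (hε : 0 < ε) {x : K} (hx0 : a x ≠ 0)
    (hmax : ∀ z : K, ‖a z‖ * Real.exp (ε * q z.1) ≤
      ‖a x‖ * Real.exp (ε * q x.1)) : ¬ HasDisc K x.1 := by
  rintro ⟨φ, hφ, h0, hK, hne⟩
  obtain ⟨b, hb1, hb2⟩ := hol hO hKO ha hφ hK
  set c : ℂ → ℂ := fun s => b s * Complex.exp (2 * ε * pr (φ s) x.1) with hc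
  have hcd : ∀ᶠ s in 𝓝 (0 : ℂ), DifferentiableAt ℂ c s := by
    filter_upwards [hb1, hφ.eventually_analyticAt] with s h1 h2
    refine h1.mul (DifferentiableAt.cexp ?_)
    exact ((pr_diff x.1) (φ s)).comp s h2.differentiableAt |>.const_mul _
  have hnorm : ∀ᶠ s in 𝓝 (0 : ℂ), ‖c s‖ * Real.exp (ε * q (φ s - x.1)) ≤
      ‖a x‖ * Real.exp (2 * ε * q x.1) := by
    filter_upwards [hb2, hK] with s h1 h2
    have h3 := hmax ⟨φ s, h2⟩
    rw [hc]
    simp only
    rw [norm_mul, h1 h2, Complex.norm_exp, mul_assoc, ← Real.exp_add]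
    have h4 : (2 * (ε : ℂ) * pr (φ s) x.1).re + ε * q (φ s - x.1) =
        ε * q (φ s) + ε * q x.1 := by
      rw [q_sub]
      have : (2 * (ε : ℂ) * pr (φ s) x.1).re = 2 * ε * (pr (φ s) x.1).re := by
        have : (2 * (ε : ℂ)) = ((2 * ε : ℝ) : ℂ) := by push_cast; ring
        rw [this, Complex.re_ofReal_mul]
      rw [this]
      ring
    rw [h4, Real.exp_add, ← mul_assoc]
    have h5 : 2 * ε * q x.1 = ε * q x.1 + ε * q x.1 := by ring
    rw [h5, Real.exp_add, ← mul_assoc]
    exact mul_le_mul_of_nonneg_right h3 (Real.exp_nonneg _)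
  have hc0 : ‖c 0‖ = ‖a x‖ * Real.exp (2 * ε * q x.1) := by
    rw [hc]
    simp only
    have hxK : φ 0 ∈ K := by rw [h0]; exact x.2
    have h1 := (hb2.self_of_nhds) hxK
    have h2 : (⟨φ 0, hxK⟩ : K) = x := Subtype.ext h0
    rw [h1, h2, norm_mul, Complex.norm_exp, h0]
    have : (2 * (ε : ℂ)) = ((2 * ε : ℝ) : ℂ) := by push_cast; ring
    rw [this, Complex.re_ofReal_mul, pr_self]
  have hpos : 0 < ‖c 0‖ := by
    rw [hc0]
    have := norm_pos_iff.2 hx0
    positivity
  have hloc : IsLocalMax (norm ∘ c) 0 := by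
    filter_upwards [hnorm] with s hs
    simp only [Function.comp]
    rw [← hc0] at hs
    have h1 : 1 ≤ Real.exp (ε * q (φ s - x.1)) := Real.one_le_exp (mul_nonneg hε.le (q_nonneg _))
    nlinarith [norm_nonneg (c s)]
  have hconst := Complex.eventually_eq_of_isLocalMax_norm hcd hloc
  apply hne
  filter_upwards [hnorm, hconst] with s h1 h2
  rw [h2, ← hc0] at h1
  have h3 : Real.exp (ε * q (φ s - x.1)) ≤ 1 := by
    by_contra hcon
    push Not at hcon
    nlinarith
  have h4 : ε * q (φ s - x.1) ≤ 0 := by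
    by_contra hcon
    push Not at hcon
    have := Real.one_lt_exp_iff.2 hcon
    linarith
  have h5 : q (φ s - x.1) = 0 := by
    have := q_nonneg (φ s - x.1)
    nlinarith
  exact sub_eq_zero.1 (q_eq_zero h5)

/-- a maximum point cannot be the same for all functions of a ball of the algebra -/
lemma peak {O K : Set (Fin n → ℂ)} [CompactSpace K] {a : C(K, ℂ)} (ha : a ∈ UA O K) {ε δ : ℝ}
    (hε : 0 < ε) (hδ : 0 < δ) {b : K} (hb0 : a b ≠ 0)
    (hmax : ∀ a' ∈ UA O K, ‖a' - a‖ < δ → ∀ z : K, ‖a' z‖ * Real.exp (ε * q z.1) ≤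
      ‖a' b‖ * Real.exp (ε * q b.1)) : ¬ (𝓝[≠] b).NeBot := by
  intro hacc
  set f : C(K, ℂ) := (a b)⁻¹ • (a * ⟨fun z : K => Complex.exp (2 * ε * pr (z.1 - b.1) b.1),
    by
      have := (pr_diff b.1).continuous
      fun_prop⟩) with hf
  have hfA : f ∈ UA O K := by
    rw [hf]
    refine (UA O K).smul_mem ((UA O K).mul_mem ha ?_) _
    apply entire_mem (h := fun z => Complex.exp (2 * ε * pr (z - b.1) b.1))
    have h1 : Differentiable ℂ (fun z : Fin n → ℂ => pr (z - b.1) b.1) :=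
      (pr_diff b.1).comp (differentiable_id.sub_const _)
    exact (h1.const_mul _).cexp
  have hfn : ∀ z : K, ‖f z‖ ≤ Real.exp (-(ε * q (z.1 - b.1))) := by
    intro z
    have h1 := hmax a ha (by simpa using hδ) z
    have hpos : 0 < ‖a b‖ := norm_pos_iff.2 hb0
    have e1 : ‖f z‖ = ‖a b‖⁻¹ * (‖a z‖ * Real.exp (2 * ε * (pr (z.1 - b.1) b.1).re)) := by
      rw [hf]
      simp only [ContinuousMap.smul_apply, ContinuousMap.mul_apply, ContinuousMap.coe_mk,
        smul_eq_mul, norm_mul, norm_inv, Complex.norm_exp]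
      have : (2 * (ε : ℂ)) = ((2 * ε : ℝ) : ℂ) := by push_cast; ring
      rw [this, Complex.re_ofReal_mul]
    have e2 : 2 * ε * (pr (z.1 - b.1) b.1).re =
        ε * q z.1 + (-(ε * q (z.1 - b.1)) + -(ε * q b.1)) := by
      have h2 := q_sub (z.1 - b.1) b.1
      have h3 := q_sub z.1 b.1
      have h4 : pr (z.1 - b.1) b.1 = pr z.1 b.1 - pr b.1 b.1 := by
        unfold pr
        rw [← Finset.sum_sub_distrib]
        refine Finset.sum_congr rfl (fun i _ => ?_)
        rw [Pi.sub_apply]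
        ring
      have h5 : (pr (z.1 - b.1) b.1).re =
          (pr z.1 b.1).re - q b.1 := by
        rw [h4, Complex.sub_re, pr_self]
      rw [h5]
      have : 2 * (pr z.1 b.1).re = q z.1 + q b.1 -
        q (z.1 - b.1) := by linarith
      linear_combination ε * this
    rw [e1, e2, Real.exp_add, ← mul_assoc (‖a z‖), Real.exp_add]
    have h6 : ‖a z‖ * Real.exp (ε * q z.1) * Real.exp (-(ε * q b.1)) ≤
        ‖a b‖ := by
      calc _ ≤ ‖a b‖ * Real.exp (ε * q b.1) *
            Real.exp (-(ε * q b.1)) :=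
            mul_le_mul_of_nonneg_right h1 (Real.exp_nonneg _)
        _ = ‖a b‖ := by rw [mul_assoc, ← Real.exp_add]; simp
    calc ‖a b‖⁻¹ * (‖a z‖ * Real.exp (ε * q z.1) *
          (Real.exp (-(ε * q (z.1 - b.1))) * Real.exp (-(ε * q b.1))))
        = ‖a b‖⁻¹ * (‖a z‖ * Real.exp (ε * q z.1) *
          Real.exp (-(ε * q b.1))) * Real.exp (-(ε * q (z.1 - b.1))) := by
          ring
      _ ≤ ‖a b‖⁻¹ * ‖a b‖ * Real.exp (-(ε * q (z.1 - b.1))) := by gcongr
      _ = _ := by rw [inv_mul_cancel₀ hpos.ne', one_mul]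
  have hfb : f b = 1 := by
    rw [hf]
    simp only [ContinuousMap.smul_apply, ContinuousMap.mul_apply, ContinuousMap.coe_mk,
      smul_eq_mul, sub_self]
    have : pr (0 : Fin n → ℂ) b.1 = 0 := by simp [pr]
    rw [this, mul_zero, Complex.exp_zero, mul_one, inv_mul_cancel₀ hb0]
  have hfn1 : ∀ z : K, ‖f z‖ ≤ 1 := fun z => (hfn z).trans (by
    rw [Real.exp_le_one_iff]
    have := mul_nonneg hε.le (q_nonneg (z.1 - b.1))
    linarith)
  -- the test functions
  have hkey : ∀ z : K, z ≠ b → (‖a z‖ + δ / 4) * Real.exp (ε * q z.1) ≤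
      ‖a b‖ * Real.exp (ε * q b.1) := by
    intro z hz
    have hlt : ‖f z‖ < 1 := by
      refine (hfn z).trans_lt ?_
      rw [Real.exp_lt_one_iff]
      have h1 : 0 < q (z.1 - b.1) := by
        rcases (q_nonneg (z.1 - b.1)).eq_or_lt with h | h
        · exact absurd (Subtype.ext (sub_eq_zero.1 (q_eq_zero h.symm))) hz
        · exact h
      have := mul_pos hε h1
      linarith
    have hN : ∀ N : ℕ, N ≠ 0 → (‖a z‖ + δ / 4 * ‖1 - f z ^ N‖) *
        Real.exp (ε * q z.1) ≤ ‖a b‖ * Real.exp (ε * q b.1) := by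
      intro N hN
      -- choose the phase
      obtain ⟨θ, hθ, hθ2⟩ : ∃ θ : ℂ, ‖θ‖ = 1 ∧
          ‖a z + (δ / 4 : ℝ) * θ * (1 - f z ^ N)‖ = ‖a z‖ + δ / 4 * ‖1 - f z ^ N‖ := by
        by_cases h1 : a z = 0
        · refine ⟨1, norm_one, ?_⟩
          rw [h1, norm_zero, zero_add, zero_add, norm_mul, norm_mul, norm_one, mul_one,
            Complex.norm_real, Real.norm_of_nonneg (by positivity)]
        · by_cases h2 : 1 - f z ^ N = 0
          · refine ⟨1, norm_one, ?_⟩
            rw [h2, norm_zero, mul_zero, mul_zero, add_zero, add_zero]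
          · have n1 : (‖a z‖ : ℂ) ≠ 0 := by
              exact_mod_cast (norm_pos_iff.2 h1).ne'
            have n2 : (‖1 - f z ^ N‖ : ℂ) ≠ 0 := by
              exact_mod_cast (norm_pos_iff.2 h2).ne'
            refine ⟨a z / ‖a z‖ * (‖1 - f z ^ N‖ / (1 - f z ^ N)), ?_, ?_⟩
            · rw [norm_mul, norm_div, norm_div, Complex.norm_real, Complex.norm_real, norm_norm,
                norm_norm, div_self (norm_pos_iff.2 h1).ne', div_self (norm_pos_iff.2 h2).ne',
                one_mul]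
            · have e : a z + (δ / 4 : ℝ) * (a z / ‖a z‖ * (‖1 - f z ^ N‖ / (1 - f z ^ N))) *
                  (1 - f z ^ N) = ((‖a z‖ + δ / 4 * ‖1 - f z ^ N‖ : ℝ) : ℂ) * (a z / ‖a z‖) := by
                push_cast
                field_simp
              rw [e, norm_mul, norm_div, Complex.norm_real, Complex.norm_real, norm_norm,
                div_self (norm_pos_iff.2 h1).ne', mul_one]
              exact Real.norm_of_nonneg (by positivity)
      set a' : C(K, ℂ) := a + ((δ / 4 : ℝ) * θ : ℂ) • (1 - f ^ N) with ha'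
      have ha'A : a' ∈ UA O K := by
        rw [ha']
        exact (UA O K).add_mem ha ((UA O K).smul_mem ((UA O K).sub_mem (UA O K).one_mem
          ((UA O K).pow_mem hfA N)) _)
      have hdist : ‖a' - a‖ < δ := by
        rw [ha', add_sub_cancel_left, norm_smul, norm_mul, hθ, mul_one, Complex.norm_real,
          Real.norm_of_nonneg (by positivity)]
        have : ‖1 - f ^ N‖ ≤ 2 := by
          rw [ContinuousMap.norm_le _ (by norm_num)]
          intro x
          rw [ContinuousMap.sub_apply, ContinuousMap.one_apply, ContinuousMap.pow_apply]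
          calc ‖1 - f x ^ N‖ ≤ ‖(1 : ℂ)‖ + ‖f x ^ N‖ := norm_sub_le _ _
            _ ≤ 1 + 1 := by
              rw [norm_one, norm_pow]
              gcongr
              exact pow_le_one₀ (norm_nonneg _) (hfn1 x)
            _ = 2 := by norm_num
        nlinarith
      have h3 := hmax a' ha'A hdist z
      have h4 : a' z = a z + (δ / 4 : ℝ) * θ * (1 - f z ^ N) := by
        rw [ha']
        simp only [ContinuousMap.add_apply, ContinuousMap.smul_apply, ContinuousMap.sub_apply,
          ContinuousMap.one_apply, ContinuousMap.pow_apply, smul_eq_mul]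
      have h5 : a' b = a b := by
        rw [ha']
        simp only [ContinuousMap.add_apply, ContinuousMap.smul_apply, ContinuousMap.sub_apply,
          ContinuousMap.one_apply, ContinuousMap.pow_apply, smul_eq_mul, hfb, one_pow, sub_self,
          mul_zero, add_zero]
      rw [h4, h5, hθ2] at h3
      exact h3
    have hlim : Tendsto (fun N : ℕ => (‖a z‖ + δ / 4 * ‖1 - f z ^ N‖) *
        Real.exp (ε * q z.1)) atTop
        (𝓝 ((‖a z‖ + δ / 4 * ‖(1 : ℂ) - 0‖) * Real.exp (ε * q z.1))) := by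
      have h1 := tendsto_pow_atTop_nhds_zero_of_norm_lt_one hlt
      exact (((tendsto_const_nhds.sub h1).norm.const_mul _).const_add _).mul_const _
    have h2 := le_of_tendsto hlim (eventually_atTop.2 ⟨1, fun N hN1 => hN N (by omega)⟩)
    simpa using h2
  -- let `z` tend to `b`
  have hcont : ContinuousAt (fun z : K => (‖a z‖ + δ / 4) * Real.exp (ε * q z.1)) b := by
    have := (q_cont (n := n)).comp (continuous_subtype_val (p := fun z => z ∈ K))
    have h2 : Continuous (fun z : K => (‖a z‖ + δ / 4) * Real.exp (ε * q z.1)) :=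
      (a.continuous.norm.add continuous_const).mul
        (Real.continuous_exp.comp (continuous_const.mul this))
    exact h2.continuousAt
  have hfin := le_of_tendsto (hcont.tendsto.mono_left (nhdsWithin_le_nhds (s := {b}ᶜ)))
    (eventually_nhdsWithin_of_forall fun z hz => hkey z hz)
  have : 0 < Real.exp (ε * q b.1) := Real.exp_pos _
  nlinarith


end Pool.Agent.J4H69.K1.Mb

namespace Pool.Agent.J4H69.K1

open Filter Topology Set Metric
open Pool.Agent.J4H69.AX (HasDisc q pr q_sub q_nonneg q_eq_zero q_cont pr_self pr_diff)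
open Mb

theorem t_MAXB : S_MAXB := by
  intro n T B E O hT hO hTO hE hB hperf hd G hG h0 M hM hbd
  by_contra hcon
  push Not at hcon
  obtain ⟨p, hp, hGp⟩ := hcon
  set γ := ‖G p‖ with hγ
  -- a level between
  set τ : ℝ := (γ - M) / 4 with hτ
  have hτ0 : 0 < τ := by
    rw [hτ]
    linarith
  have hγM : γ = M + 4 * τ := by
    rw [hτ]
    ring
  have hγ0 : 0 < γ := by linarith
  obtain ⟨R0, hR0⟩ := h0 τ hτ0
  set R := max R0 (‖p‖ + 1) with hR
  have hpR : ‖p‖ < R := lt_of_lt_of_le (by linarith) (le_max_right _ _)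
  have hRpos : 0 < R := (norm_nonneg p).trans_lt hpR
  set K := T ∩ closedBall (0 : Fin n → ℂ) R with hK
  have hKO : K ⊆ O := inter_subset_left.trans hTO
  have hKc : IsCompact K := (isCompact_closedBall 0 R).inter_left hT
  have : CompactSpace K := isCompact_iff_compactSpace.1 hKc
  have hqR : ∀ z ∈ K, q z ≤ n * R ^ 2 := by
    intro z hz
    have hz2 : ‖z‖ ≤ R := by simpa using hz.2
    calc q z ≤ ∑ _i : Fin n, R ^ 2 := by
          refine Finset.sum_le_sum fun i _ => ?_
          exact pow_le_pow_left₀ (norm_nonneg _) ((norm_le_pi_norm z i).trans hz2) 2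
      _ = n * R ^ 2 := by simp
  -- the weight is close to 1
  set l : ℝ := (M + 3 * τ) / (M + 2 * τ) with hl
  have hden : 0 < M + 2 * τ := by linarith
  have hl1 : 1 < l := by
    rw [hl, lt_div_iff₀ hden]
    linarith
  have hlog : 0 < Real.log l := Real.log_pos hl1
  obtain ⟨ε, hε, hεR⟩ : ∃ ε : ℝ, 0 < ε ∧ ε * (n * R ^ 2) ≤ Real.log l := by
    refine ⟨Real.log l / (n * R ^ 2 + 1), by positivity, ?_⟩
    rw [div_mul_eq_mul_div, div_le_iff₀ (by positivity)]
    nlinarith [sq_nonneg R, hlog]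
  have hexp : ∀ z ∈ K, Real.exp (ε * q z) ≤ l := by
    intro z hz
    calc Real.exp (ε * q z) ≤ Real.exp (Real.log l) := by
          apply Real.exp_le_exp.2
          exact (mul_le_mul_of_nonneg_left (hqR z hz) hε.le).trans hεR
      _ = l := Real.exp_log (by linarith)
  have hexp1 : ∀ z : Fin n → ℂ, 1 ≤ Real.exp (ε * q z) := fun z =>
    Real.one_le_exp (mul_nonneg hε.le (q_nonneg z))
  have hpK : p ∈ K := ⟨hp, by simpa using hpR.le⟩
  have hGc : ContinuousOn G O := hG.continuousOn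
  set g : C(K, ℂ) := ⟨fun z : K => G z, by
    exact (hGc.mono hKO).domRestrict⟩ with hg
  have hgA : g ∈ UA O K := (EA O K).le_topologicalClosure ⟨G, hG, fun _ => rfl⟩
  have hnear : ∀ a : C(K, ℂ), ‖a - g‖ < τ / 2 → ∀ b : K,
      (∀ z : K, ‖a z‖ * Real.exp (ε * q z.1) ≤ ‖a b‖ * Real.exp (ε * q b.1)) →
      a b ≠ 0 ∧ ‖b.1‖ < R ∧ b.1 ∉ E := by
    intro a ha b hb
    have hag : ∀ z : K, ‖a z - g z‖ < τ / 2 := fun z =>
      lt_of_le_of_lt (ContinuousMap.norm_coe_le_norm (a - g) z) ha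
    have h1 := hb ⟨p, hpK⟩
    have h2 : M + 3 * τ + τ / 2 ≤ ‖a ⟨p, hpK⟩‖ := by
      have h3 := hag ⟨p, hpK⟩
      have h4 : ‖g ⟨p, hpK⟩‖ = γ := rfl
      have h5 := norm_sub_norm_le (g ⟨p, hpK⟩) (a ⟨p, hpK⟩)
      rw [norm_sub_rev] at h5
      linarith
    have h3 : M + 3 * τ + τ / 2 ≤ ‖a b‖ * Real.exp (ε * q b.1) := by
      refine le_trans ?_ h1
      have := hexp1 p
      have h6 := norm_nonneg (a ⟨p, hpK⟩)
      simp only
      nlinarith
    have h9 := hexp b.1 b.2
    have h10 : 0 < Real.exp (ε * q b.1) := Real.exp_pos _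
    have h11 : M + 2 * τ < ‖a b‖ := by
      have h12 : M + 3 * τ + τ / 2 ≤ ‖a b‖ * l :=
        h3.trans (mul_le_mul_of_nonneg_left h9 (norm_nonneg _))
      have h13 : (M + 2 * τ) * l = M + 3 * τ := by
        rw [hl]
        field_simp
      by_contra hcon
      push Not at hcon
      have h14 : ‖a b‖ * l ≤ (M + 2 * τ) * l := mul_le_mul_of_nonneg_right hcon (by linarith)
      linarith
    have h12 : M + τ < ‖g b‖ := by
      have h5 := hag b
      have h7 := norm_sub_norm_le (a b) (g b)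
      linarith
    refine ⟨?_, ?_, ?_⟩
    · intro h4
      rw [h4, norm_zero] at h11
      linarith
    · by_contra hcon
      push Not at hcon
      have h4 : ‖G b.1‖ ≤ τ := hR0 b.1 b.2.1 ((le_max_left _ _).trans hcon)
      have h6 : ‖g b‖ ≤ τ := h4
      linarith
    · intro hbE
      have h4 : ‖G b.1‖ ≤ M := hbd b.1 b.2.1 hbE
      have h6 : ‖g b‖ ≤ M := h4
      linarith
  -- the theorem of Baire
  have : CompleteSpace (UA O K) := by
    have : IsClosed ((UA O K : Subalgebra ℂ C(K, ℂ)) : Set C(K, ℂ)) :=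
      (EA O K).isClosed_topologicalClosure
    exact this.completeSpace_coe
  have : Countable {b : K // b.1 ∈ B} := by
    have := hB.to_subtype
    exact Function.Injective.countable (f := fun b : {b : K // b.1 ∈ B} => (⟨b.1.1, b.2⟩ : B))
      (fun x y h => Subtype.ext (Subtype.ext (congrArg (fun t : B => t.1) h)))
  set f : Option {b : K // b.1 ∈ B} → Set (UA O K) := fun o => o.elim
    {a | τ / 2 ≤ ‖a.1 - g‖}
    (fun b => {a | ∀ z : K, ‖a.1 z‖ * Real.exp (ε * q z.1) ≤
      ‖a.1 b.1‖ * Real.exp (ε * q b.1.1)}) with hf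
  have hev : ∀ z : K, Continuous (fun a : UA O K => ‖a.1 z‖) := fun z =>
    ((continuous_eval_const (F := C(K, ℂ)) z).comp continuous_subtype_val).norm
  have hclosed : ∀ o, IsClosed (f o) := by
    rintro (_ | b)
    · exact isClosed_le continuous_const (by fun_prop)
    · have : f (some b) = ⋂ z : K, {a : UA O K | ‖a.1 z‖ * Real.exp (ε * q z.1) ≤
          ‖a.1 b.1‖ * Real.exp (ε * q b.1.1)} := by
        ext a
        simp only [hf, Option.elim_some, mem_iInter]
        rfl
      rw [this]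
      exact isClosed_iInter fun z => isClosed_le ((hev z).mul continuous_const)
        ((hev b.1).mul continuous_const)
  have hcov : (⋃ o, f o) = univ := by
    rw [eq_univ_iff_forall]
    intro a
    by_cases ha : τ / 2 ≤ ‖a.1 - g‖
    · exact mem_iUnion.2 ⟨none, ha⟩
    push Not at ha
    have : Nonempty K := ⟨⟨p, hpK⟩⟩
    have hcont : Continuous (fun z : K => ‖a.1 z‖ * Real.exp (ε * q z.1)) :=
      a.1.continuous.norm.mul (Real.continuous_exp.comp
        (continuous_const.mul (q_cont.comp continuous_subtype_val)))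
    obtain ⟨b, -, hb⟩ := isCompact_univ.exists_isMaxOn (univ_nonempty (α := K)) hcont.continuousOn
    have hb' : ∀ z : K, ‖a.1 z‖ * Real.exp (ε * q z.1) ≤ ‖a.1 b‖ * Real.exp (ε * q b.1) :=
      fun z => hb (mem_univ z)
    obtain ⟨hab, hbR, hbE⟩ := hnear a.1 ha b hb'
    have hbB : b.1 ∈ B := by
      by_contra hbB
      apply no_max hO hKO a.2 hε hab hb'
      obtain ⟨φ, h1, h2, h3, h4⟩ := hd b.1 b.2.1 hbB hbE
      refine ⟨φ, h1, h2, ?_, h4⟩
      have h5 : ∀ᶠ s in 𝓝 (0 : ℂ), φ s ∈ ball (0 : Fin n → ℂ) R := by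
        apply h1.continuousAt.eventually (isOpen_ball.mem_nhds _)
        rw [h2]
        simpa using hbR
      filter_upwards [h3, h5] with s h6 h7
      exact ⟨h6, ball_subset_closedBall h7⟩
    exact mem_iUnion.2 ⟨some ⟨b, hbB⟩, hb'⟩
  have : BaireSpace (UA O K) := BaireSpace.of_completelyPseudoMetrizable
  have hdense := dense_iUnion_interior_of_closed hclosed hcov
  have hOp : IsOpen {a : UA O K | ‖a.1 - g‖ < τ / 2} := isOpen_lt (by fun_prop) continuous_const
  obtain ⟨a, haO, ha⟩ := hdense.inter_open_nonempty _ hOp ⟨⟨g, hgA⟩, by simpa using hτ0⟩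
  obtain ⟨o, ho⟩ := mem_iUnion.1 ha
  rcases o with _ | b
  · have h0 : a ∈ f none := interior_subset ho
    have h1 : τ / 2 ≤ ‖a.1 - g‖ := h0
    have h2 : ‖a.1 - g‖ < τ / 2 := haO
    linarith
  · have h0 : a ∈ f (some b) := interior_subset ho
    have h1 : ∀ z : K, ‖a.1 z‖ * Real.exp (ε * q z.1) ≤ ‖a.1 b.1‖ * Real.exp (ε * q b.1.1) := h0
    obtain ⟨hab, hbR, hbE⟩ := hnear a.1 haO b.1 h1
    obtain ⟨δ, hδ, hball⟩ := Metric.mem_nhds_iff.1 (mem_interior_iff_mem_nhds.1 ho)
    refine peak a.2 hε hδ hab (fun a' ha' hdist => ?_) ?_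
    · have h2 : (⟨a', ha'⟩ : UA O K) ∈ ball a δ := by
        rw [mem_ball, dist_eq_norm]
        exact hdist
      exact hball h2
    · rw [← mem_closure_iff_nhdsWithin_neBot, closure_subtype, mem_closure_iff_nhds]
      intro U hU
      have h2 := mem_closure_iff_nhds.1 (hperf b.1.1 b.1.2.1 hbE) (U ∩ ball (0 : Fin n → ℂ) R)
        (inter_mem hU (isOpen_ball.mem_nhds (by simpa using hbR)))
      obtain ⟨z, ⟨hzU, hzR⟩, hzT, hzb⟩ := h2
      refine ⟨z, hzU, ⟨z, hzT, ball_subset_closedBall hzR⟩, ?_, rfl⟩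
      intro h3
      exact hzb (congrArg Subtype.val h3)

end Pool.Agent.J4H69.K1
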