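import Pool.Agent.J4H69.K1.Gamma
import Pool.Agent.J4H69.K1.Maxb
import Pool.Agent.J4H17.K1.Com
import Pool.Agent.J4H17.K1.Det
import Pool.Agent.J4H17.K1.Min
import Pool.Agent.J4H17.K1.Trd
import Pool.Agent.J4H21.K1.Left
import Pool.Agent.J4H21.K1.Psi
import Pool.Agent.J4H25.K1.Dep
import Pool.Agent.J4H45.K1.Loc
import Pool.Agent.J4H63.K1.Mis
import Pool.Agent.J4H98.K1.Cl
import Pool.Agent.J4H98.K1.Dom
import Pool.Agent.J4H98.K1.Fin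
import Pool.Agent.J4H98.K1.Pc
import Pool.Agent.J4H98.K1.Trn

set_option autoImplicit false

/-!
Project K1: the theorem for three functions of one variable.
-/

namespace Pool.Agent.J4H69.K1

/-- four of the functions `f_i`, `1 / Γ(f_i)` are algebraically independent -/
theorem four {D : Set ℂ} {f : Fin 3 → ℂ → ℂ} (hD : IsOpen D) (hp : IsPreconnected D)
    (hf : ∀ i, AnalyticOnNhd ℂ (f i) D)
    (hpair : ∀ i j : Fin 3, i ≠ j → ∀ P : MvPolynomial (Fin 2) ℂ, P ≠ 0 →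
      ∃ t ∈ D, MvPolynomial.eval ![f i t, f j t] P ≠ 0) :
    ∃ e : Fin 4 → Fin 3 ⊕ Fin 3, Indep (rel D f) e :=
  four_rg Pool.Agent.J4H45.K1.t_LOC (Pool.Agent.J4H25.K1.t_DEP t_MAXB) Pool.Agent.J4H17.K1.t_TRD
    Pool.Agent.J4H17.K1.t_MIN
    (Pool.Agent.J4H98.K1.t_FIN
      (Pool.Agent.J4H63.K1.t_MIS Pool.Agent.J4H21.K1.t_PSI Pool.Agent.J4H21.K1.t_LEFT Pool.Agent.J4H98.K1.t_CL
        Pool.Agent.J4H98.K1.t_PC Pool.Agent.J4H98.K1.t_DOM)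
      Pool.Agent.J4H98.K1.t_TRN Pool.Agent.J4H17.K1.t_DET Pool.Agent.J4H17.K1.t_COM)
    hD hp hf hpair

/-- four of the functions `f_i`, `Γ(f_i)` are algebraically independent -/
theorem four_gamma {D : Set ℂ} {f : Fin 3 → ℂ → ℂ} (hD : IsOpen D) (hp : IsPreconnected D)
    (hf : ∀ i, AnalyticOnNhd ℂ (f i) D)
    (hpair : ∀ i j : Fin 3, i ≠ j → ∀ P : MvPolynomial (Fin 2) ℂ, P ≠ 0 →
      ∃ t ∈ D, MvPolynomial.eval ![f i t, f j t] P ≠ 0) :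
    ∃ e : Fin 4 → Fin 3 ⊕ Fin 3, ∀ P : MvPolynomial (Fin 4) ℂ, P ≠ 0 →
      ∃ t ∈ D, (∀ i, ∀ k : ℕ, f i t ≠ -k) ∧
        MvPolynomial.eval (fun k => Sum.elim (fun i => f i t) (fun i => Complex.Gamma (f i t)) (e k)) P ≠ 0 := by
  obtain ⟨e, he⟩ := four hD hp hf hpair
  exact ⟨e, fun P hP => four_gam hD hp hf hpair he P hP⟩

end Pool.Agent.J4H69.K1
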