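import Pool.Agent.J4H69.K1.Alg

set_option autoImplicit false

/-!
Assembly: three pairwise algebraically independent functions.
-/

namespace Pool.Agent.J4H69.K1

open Filter Topology Set Metric
open scoped Polynomial

variable {D : Set ℂ} {f : Fin 3 → ℂ → ℂ}

lemma rename_mem_rel {m : ℕ} {s : Fin m → Fin 3 ⊕ Fin 3} {P : MvPolynomial (Fin m) ℂ} :
    MvPolynomial.rename s P ∈ rel D f ↔
      ∀ t ∈ D, MvPolynomial.eval (fun k => env rg (fun i => f i t) (s k)) P = 0 := by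
  rw [mem_rel]
  refine forall₂_congr fun t _ => ?_
  rw [MvPolynomial.eval_rename]
  rfl

lemma env_pair (z : Fin 3 → ℂ) (i j : Fin 3) :
    (fun k => env rg z ((![Sum.inl i, Sum.inl j] : Fin 2 → Fin 3 ⊕ Fin 3) k)) = ![z i, z j] := by
  funext k
  fin_cases k <;> rfl

/-- evaluation of a polynomial in one more variable -/
lemma eval_map_rn {m : ℕ} (s : Fin m → Fin 3 ⊕ Fin 3) (v : Fin 3 ⊕ Fin 3) (ε : Fin 3 ⊕ Fin 3 → ℂ)
    (E : Polynomial (MvPolynomial (Fin m) ℂ)) :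
    MvPolynomial.eval ε ((E.map (rn s)).eval (MvPolynomial.X v)) =
      (E.map (MvPolynomial.eval fun k => ε (s k))).eval (ε v) := by
  rw [Polynomial.eval_map, Polynomial.eval_map, Polynomial.hom_eval₂]
  congr 1
  · apply RingHom.ext
    intro P
    rw [RingHom.comp_apply]
    change MvPolynomial.eval ε (MvPolynomial.rename s P) = _
    rw [MvPolynomial.eval_rename]
    rfl
  · simp

variable (hD : IsOpen D) (hp : IsPreconnected D) (hf : ∀ i, AnalyticOnNhd ℂ (f i) D)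
  (hpair : ∀ i j : Fin 3, i ≠ j → ∀ P : MvPolynomial (Fin 2) ℂ, P ≠ 0 →
    ∃ t ∈ D, MvPolynomial.eval ![f i t, f j t] P ≠ 0)

include hpair in
lemma pair_indep {i j : Fin 3} (hij : i ≠ j) :
    Indep (rel D f) (![Sum.inl i, Sum.inl j] : Fin 2 → Fin 3 ⊕ Fin 3) := by
  intro P hP
  by_contra hne
  obtain ⟨t, ht, h⟩ := hpair i j hij P hne
  apply h
  have h1 := rename_mem_rel.1 hP t ht
  rw [env_pair] at h1
  exact h1

include hD hp hf hpair in
/-- the functions are not constant -/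
lemma exists_deriv (i : Fin 3) : ∃ t ∈ D, deriv (f i) t ≠ 0 := by
  by_contra hcon
  push Not at hcon
  obtain ⟨j, hij⟩ : ∃ j : Fin 3, i ≠ j := by
    by_cases h : i = 0
    · exact ⟨1, by rw [h]; decide⟩
    · exact ⟨0, h⟩
  obtain ⟨t₀, ht₀, -⟩ := hpair i j hij 1 one_ne_zero
  have hconst : ∀ t ∈ D, f i t = f i t₀ := by
    intro t ht
    exact hD.is_const_of_deriv_eq_zero hp (fun y hy => (hf i y hy).differentiableAt.differentiableWithinAt)
      (fun y hy => hcon y hy) ht ht₀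
  obtain ⟨t, ht, h⟩ := hpair i j hij (MvPolynomial.X 0 - MvPolynomial.C (f i t₀)) (by
    intro h
    have h1 := congrArg (MvPolynomial.eval (fun _ => f i t₀ + 1)) h
    simp at h1)
  apply h
  simp [hconst t ht]

include hD hp hf hpair in
/-- of two functions `rg f_b`, `rg f_c` one is transcendental over `f_b`, `f_c` -/
lemma trs_pair {b c : Fin 3} (hbc : b ≠ c) :
    Trs (rel D f) (![Sum.inl b, Sum.inl c] : Fin 2 → Fin 3 ⊕ Fin 3) (Sum.inr b) ∨
      Trs (rel D f) (![Sum.inl b, Sum.inl c] : Fin 2 → Fin 3 ⊕ Fin 3) (Sum.inr c) := by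
  obtain ⟨t₀, ht₀, hder⟩ := exists_deriv hD hp hf hpair b
  obtain ⟨j, hj⟩ := one (n := 2) hD hp (f := ![f b, f c]) (fun i => by
    fin_cases i
    · exact hf b
    · exact hf c) ht₀ (i₀ := 0) hder
  have key : Trs (rel D f) (![Sum.inl b, Sum.inl c] : Fin 2 → Fin 3 ⊕ Fin 3)
      (Sum.inr ((![b, c] : Fin 2 → Fin 3) j)) := by
    rintro E ⟨l, hl⟩ hE
    rw [rename_mem_rel] at hl
    push Not at hl
    obtain ⟨t, ht, h1⟩ := hl
    rw [env_pair] at h1
    have e1 : ∀ t, (fun i => (![f b, f c] : Fin 2 → ℂ → ℂ) i t) = ![f b t, f c t] := by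
      intro t
      funext i
      fin_cases i <;> rfl
    obtain ⟨t', ht', h2⟩ := hj E ⟨l, t, ht, by rw [e1]; exact h1⟩
    apply h2
    have h3 := (mem_rel.1 hE) t' ht'
    rw [eval_map_rn, env_pair] at h3
    rw [e1]
    have e2 : rg ((![f b, f c] : Fin 2 → ℂ → ℂ) j t') =
        env rg (fun i => f i t') (Sum.inr ((![b, c] : Fin 2 → Fin 3) j)) := by
      fin_cases j <;> rfl
    rw [e2]
    exact h3
  fin_cases j
  · exact Or.inl key
  · exact Or.inr key

include hD hp hf hpair in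
/-- one of the functions `rg f_j` is transcendental over all `f_i` -/
lemma trs_triple : ∃ j : Fin 3, Trs (rel D f) (Sum.inl : Fin 3 → Fin 3 ⊕ Fin 3) (Sum.inr j) := by
  obtain ⟨t₀, ht₀, hder⟩ := exists_deriv hD hp hf hpair 0
  obtain ⟨j, hj⟩ := one (n := 3) hD hp (f := f) hf ht₀ (i₀ := 0) hder
  refine ⟨j, ?_⟩
  rintro E ⟨l, hl⟩ hE
  rw [rename_mem_rel] at hl
  push Not at hl
  obtain ⟨t, ht, h1⟩ := hl
  obtain ⟨t', ht', h2⟩ := hj E ⟨l, t, ht, h1⟩
  apply h2
  have h3 := (mem_rel.1 hE) t' ht'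
  rw [eval_map_rn] at h3
  exact h3

lemma trs_perm {I : Ideal Pol} {s : Fin 3 → Fin 3 ⊕ Fin 3} {s' : Fin 3 → Fin 3 ⊕ Fin 3}
    {v : Fin 3 ⊕ Fin 3} (hs : Function.Injective s) (hr : range s = range s') (h : Trs I s v) : Trs I s' v := by
  by_contra hcon
  have h1 := alg_of_not_trs hcon
  rw [← hr] at h1
  exact not_trs_of_alg hs h1 h

/-- three different indices -/
lemma range_inl {a b c : Fin 3} (hab : a ≠ b) (hac : a ≠ c) (hbc : b ≠ c) :
    ∀ i : Fin 3, i = a ∨ i = b ∨ i = c := by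
  revert a b c
  decide

lemma bij3 {a b c : Fin 3} (hab : a ≠ b) (hac : a ≠ c) (hbc : b ≠ c) :
    Function.Bijective (![a, b, c] : Fin 3 → Fin 3) := by
  revert a b c
  decide

/-- `z_a` is algebraic over `z_b, z_c` -/
lemma alg_third {I : Ideal Pol} {a b c : Fin 3} (hab : a ≠ b) (hac : a ≠ c) (hbc : b ≠ c)
    (h : ¬ Indep I (Sum.inl : Fin 3 → Fin 3 ⊕ Fin 3))
    (hbcI : Indep I (![Sum.inl b, Sum.inl c] : Fin 2 → Fin 3 ⊕ Fin 3)) :
    ¬ Trs I (![Sum.inl b, Sum.inl c] : Fin 2 → Fin 3 ⊕ Fin 3) (Sum.inl a) := by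
  intro hT
  apply h
  have h1 := indep_cons hbcI hT
  have hbij := bij3 hab hac hbc
  set π := Equiv.ofBijective _ hbij with hπ
  have h2 := indep_perm h1 π.symm
  have e : (Fin.cons (Sum.inl a) ![Sum.inl b, Sum.inl c] : Fin 3 → Fin 3 ⊕ Fin 3) =
      Sum.inl ∘ ![a, b, c] := by
    funext k
    fin_cases k <;> rfl
  have e2 : (Fin.cons (Sum.inl a) ![Sum.inl b, Sum.inl c] : Fin 3 → Fin 3 ⊕ Fin 3) ∘ π.symm = Sum.inl := by
    rw [e, Function.comp_assoc]
    have : (![a, b, c] : Fin 3 → Fin 3) ∘ π.symm = id := by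
      funext k
      exact π.apply_symm_apply k
    rw [this]
    rfl
  rw [e2] at h2
  exact h2

include hD hp hf hpair in
/-- two of the functions `rg f_i` are transcendental over all `f_i` -/
lemma two_trs (h : ¬ Indep (rel D f) (Sum.inl : Fin 3 → Fin 3 ⊕ Fin 3)) :
    ∃ a b : Fin 3, a ≠ b ∧ Trs (rel D f) (Sum.inl : Fin 3 → Fin 3 ⊕ Fin 3) (Sum.inr a) ∧
      Trs (rel D f) (Sum.inl : Fin 3 → Fin 3 ⊕ Fin 3) (Sum.inr b) := by
  have hne : D.Nonempty := by
    obtain ⟨t, ht, -⟩ := hpair 0 1 (by decide) 1 one_ne_zero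
    exact ⟨t, ht⟩
  have hI := rel_prime hD hp hne hf
  have key : ∀ a b c : Fin 3, a ≠ b → a ≠ c → b ≠ c →
      Trs (rel D f) (Sum.inl : Fin 3 → Fin 3 ⊕ Fin 3) (Sum.inr b) ∨
        Trs (rel D f) (Sum.inl : Fin 3 → Fin 3 ⊕ Fin 3) (Sum.inr c) := by
    intro a b c hab hac hbc
    by_contra hcon
    push Not at hcon
    have inj2 : Function.Injective (![Sum.inl b, Sum.inl c] : Fin 2 → Fin 3 ⊕ Fin 3) := by
      intro x y hxy
      fin_cases x <;> fin_cases y <;> simp_all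
    have hrange : range (![Sum.inl b, Sum.inl c] : Fin 2 → Fin 3 ⊕ Fin 3) = {Sum.inl b, Sum.inl c} := by
      ext x
      simp [Matrix.range_cons, Matrix.range_empty, or_comm]
    have ha := alg_of_not_trs (alg_third hab hac hbc h (pair_indep hpair hbc))
    have step : ∀ j : Fin 3, ¬ Trs (rel D f) (Sum.inl : Fin 3 → Fin 3 ⊕ Fin 3) (Sum.inr j) →
        ¬ Trs (rel D f) (![Sum.inl b, Sum.inl c] : Fin 2 → Fin 3 ⊕ Fin 3) (Sum.inr j) := by
      intro j hj
      apply not_trs_of_alg inj2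
      have : (rel D f).IsPrime := hI
      have : IsDomain (Pol ⧸ rel D f) := Ideal.Quotient.isDomain _
      refine IsAlgebraic.adjoin_of_forall_isAlgebraic (R := ℂ)
        (s := vq (rel D f) '' range (Sum.inl : Fin 3 → Fin 3 ⊕ Fin 3)) ?_ (alg_of_not_trs hj)
      rintro x ⟨⟨_, ⟨i, rfl⟩, rfl⟩, hx⟩
      rcases range_inl hab hac hbc i with rfl | rfl | rfl
      · exact ha
      · exact absurd ⟨Sum.inl i, by rw [hrange]; simp, rfl⟩ hx
      · exact absurd ⟨Sum.inl i, by rw [hrange]; simp, rfl⟩ hx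
    rcases trs_pair hD hp hf hpair hbc with h1 | h1
    · exact step b hcon.1 h1
    · exact step c hcon.2 h1
  rcases key 0 1 2 (by decide) (by decide) (by decide) with h1 | h1
  · rcases key 1 0 2 (by decide) (by decide) (by decide) with h2 | h2
    · exact ⟨1, 0, by decide, h1, h2⟩
    · exact ⟨1, 2, by decide, h1, h2⟩
  · rcases key 2 0 1 (by decide) (by decide) (by decide) with h2 | h2
    · exact ⟨2, 0, by decide, h1, h2⟩
    · exact ⟨2, 1, by decide, h1, h2⟩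

/-- independence of `z_p, z_q, y_a` -/
lemma indep_zzy {I : Ideal Pol} {p q a : Fin 3}
    (hpq : Indep I (![Sum.inl p, Sum.inl q] : Fin 2 → Fin 3 ⊕ Fin 3))
    (hT : Trs I (Sum.inl : Fin 3 → Fin 3 ⊕ Fin 3) (Sum.inr a)) :
    Indep I (![Sum.inl p, Sum.inl q, Sum.inr a] : Fin 3 → Fin 3 ⊕ Fin 3) := by
  have h1 : Trs I (![Sum.inl p, Sum.inl q] : Fin 2 → Fin 3 ⊕ Fin 3) (Sum.inr a) := by
    rintro E ⟨l, hl⟩ hE
    have e1 : (rn (Sum.inl : Fin 3 → Fin 3 ⊕ Fin 3)).comp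
        (MvPolynomial.rename (![p, q] : Fin 2 → Fin 3) :
          MvPolynomial (Fin 2) ℂ →ₐ[ℂ] MvPolynomial (Fin 3) ℂ).toRingHom =
        rn (![Sum.inl p, Sum.inl q] : Fin 2 → Fin 3 ⊕ Fin 3) := by
      apply RingHom.ext
      intro P
      change MvPolynomial.rename Sum.inl (MvPolynomial.rename ![p, q] P) = MvPolynomial.rename _ P
      rw [MvPolynomial.rename_rename]
      congr 2
      funext k
      fin_cases k <;> rfl
    refine hT (E.map (MvPolynomial.rename (![p, q] : Fin 2 → Fin 3) :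
      MvPolynomial (Fin 2) ℂ →ₐ[ℂ] MvPolynomial (Fin 3) ℂ).toRingHom) ⟨l, ?_⟩ ?_
    · rw [Polynomial.coeff_map]
      have h2 := congrArg (fun φ : MvPolynomial (Fin 2) ℂ →+* Pol => φ (E.coeff l)) e1
      have h3 : MvPolynomial.rename Sum.inl ((MvPolynomial.rename (![p, q] : Fin 2 → Fin 3) :
          MvPolynomial (Fin 2) ℂ →ₐ[ℂ] MvPolynomial (Fin 3) ℂ).toRingHom (E.coeff l)) =
          MvPolynomial.rename (![Sum.inl p, Sum.inl q] : Fin 2 → Fin 3 ⊕ Fin 3) (E.coeff l) := h2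
      rw [h3]
      exact hl
    · rw [Polynomial.map_map, e1]
      exact hE
  have h2 := indep_perm (indep_cons hpq h1) (finRotate 3)
  have e : (Fin.cons (Sum.inr a) ![Sum.inl p, Sum.inl q] : Fin 3 → Fin 3 ⊕ Fin 3) ∘ (finRotate 3) =
      ![Sum.inl p, Sum.inl q, Sum.inr a] := by
    funext k
    fin_cases k <;> rfl
  rw [e] at h2
  exact h2

end Pool.Agent.J4H69.K1
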