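import Pool.Agent.J4H69.AX.Thin

set_option autoImplicit false

/-!
# Project K1 (helper69), MP_26ad15_nt: Ax–Schanuel for Γ, three functions of one variable

Goal: if `f_1, f_2, f_3` are analytic on a connected open `D ⊆ ℂ` and pairwise algebraically independent over `ℂ`, then
`trdeg ℂ(f, Γ(f)) ≥ 4`. Exact statements of the jobs. Write theorem `t_X : S_X` (or `S_A → S_B → S_X` where said).
-/

namespace Pool.Agent.J4H69.K1

open Filter Topology Set Metric
open Pool.Agent.J4H69.AX (HasDisc HasPiece)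

/-- the reciprocal of the Gamma function -/
noncomputable def rg (w : ℂ) : ℂ := (Complex.Gamma w)⁻¹

/-- polynomials in `z_i` (`Sum.inl i`) and `y_i` (`Sum.inr i`) -/
abbrev Pol := MvPolynomial (Fin 3 ⊕ Fin 3) ℂ

/-- the point `(z, g(z))` -/
def env (g : ℂ → ℂ) (z : Fin 3 → ℂ) : Fin 3 ⊕ Fin 3 → ℂ := Sum.elim z (fun i => g (z i))

/-! ## Analysis -/

/-- JOB PSI (the asymptotic expansion of the digamma function in the sector `|arg x| ≤ 3π/4`, to all orders).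
PROOF. `E_N(x) = ψ(x) - log x - a_N(x)`, `a_N(x) = ∑_{j<N} d_j x^(-j-1)`. `ψ(x+1) = ψ(x) + 1/x`, so
`E_N(x) - E_N(x+1) = δ(x) := log(1+1/x) - 1/x + a_N(x+1) - a_N(x)` (for `x` in the sector, large, `log(x+1) - log x =
log(1+1/x)`). As a function of `u = 1/x`, analytic near `u = 0`, `δ` vanishes at `u = 0` to order `≥ N + 2` if the `d_j` are chosen
one after the other: adding `d u^N` to `a` changes `δ` by `d u^N ((1+u)^(-N) - 1) = - N d u^(N+1) + O(u^(N+2))`, `N ≥ 1`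
(induction on `N`: `δ_N = O(u^(N+2))`). `E_N(x + m) → 0` (`m → ∞`), see `H370R2/Digamma.lean` (`logDeriv_Gamma'`) or
`W45/WP/Dig.lean`. So `E_N(x) = ∑_{k≥0} δ(x+k)`, `|δ(x+k)| ≤ C |x+k|^(-N-2)`, `|x+k| ≥ c (|x| + k)` in the sector. -/
def S_PSI : Prop := ∀ N : ℕ, ∃ (d : ℕ → ℂ) (C R : ℝ), 0 < R ∧ ∀ x : ℂ, R ≤ ‖x‖ → |Complex.arg x| ≤ 3 * Real.pi / 4 →
  ‖logDeriv Complex.Gamma x - (Complex.log x + ∑ j ∈ Finset.range N, d j / x ^ (j + 1))‖ ≤ C / ‖x‖ ^ (N + 1)

/-- JOB LEFT. PROOF. `rg x = sin(πx) Γ(1-x)/π`, so `rg' x = cos(πx) Γ(1-x) - rg(x) ψ(1-x)`. In the cone `Re(1-x) ≥ |x|/√2`,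
`|Γ(1-x)|` is superexponentially large (`|Γ(a+ib)| ≥ Γ(a) / √cosh(πb)`, or Stirling from the library), `|ψ(1-x)| ≤ C log|x|`
(`H370R2/Digamma.lean`: `logDeriv_Gamma'`, `norm_tsum_er`); `|sin πx| ≤ π |x|^c/|Γ(1-x)|` is tiny, so `|cos πx| ≥ 1/2`. -/
def S_LEFT : Prop := ∀ c N : ℕ, ∃ R : ℝ, ∀ x : ℂ, R ≤ ‖x‖ → 3 * Real.pi / 4 < |Complex.arg x| →
  ‖rg x‖ ≤ ‖x‖ ^ c → ‖x‖ ^ N ≤ ‖deriv rg x‖

/-- the sequence `a` is algebraic over the rational functions of the sequence `x`, along the ultrafilter `u` -/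
def Alg (u : Ultrafilter ℕ) (x a : ℕ → ℂ) : Prop :=
  ∃ E : Polynomial (Polynomial ℂ), E ≠ 0 ∧ ∀ᶠ j in (u : Filter ℕ), E.evalEval (x j) (a j) = 0

/-- JOB CL. PROOF. `K = Germ u ℂ` is a field (`Mathlib/Order/Filter/FilterProduct.lean`). `ℂ[X] → K`, `X ↦ x`, is injective
(`|x| → ∞`); `Alg u x a` iff the germ of `a` is algebraic over `ℂ[X]` (`IsAlgebraic`), and these elements form a field. -/
def S_CL : Prop := ∀ (u : Ultrafilter ℕ) (x : ℕ → ℂ), Tendsto (fun j => ‖x j‖) u atTop →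
  (∀ c : ℂ, Alg u x fun _ => c) ∧ Alg u x x ∧
  (∀ a b : ℕ → ℂ, Alg u x a → Alg u x b → Alg u x fun j => a j + b j) ∧
  (∀ a b : ℕ → ℂ, Alg u x a → Alg u x b → Alg u x fun j => a j * b j) ∧
  (∀ a : ℕ → ℂ, Alg u x a → Alg u x fun j => (a j)⁻¹) ∧
  (∀ a b : ℕ → ℂ, Alg u x a → (∀ᶠ j in (u : Filter ℕ), a j = b j) → Alg u x b)

/-- JOB PC (power comparability). PROOF. `∑_l c_l(x) a^l = 0`, the nonzero `c_l(x)` are `≍ |x|^(deg c_l)`; let `a ≠ 0` (`u`-often).
Of the terms `c_l(x) a^l` one is the largest for `u`-many `j` (finitely many terms), and another one is at least `1/d` of it for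
`u`-many `j`: `|c_l a^l| ≍ |c_m a^m|`, `l ≠ m`, so `|a|^(l-m) ≍ |x|^(deg c_m - deg c_l)`. -/
def S_PC : Prop := ∀ (u : Ultrafilter ℕ) (x a : ℕ → ℂ), Tendsto (fun j => ‖x j‖) u atTop → Alg u x a →
  (∀ᶠ j in (u : Filter ℕ), a j = 0) ∨ ∃ (v : ℚ) (C : ℝ), 0 < C ∧ ∀ᶠ j in (u : Filter ℕ),
    C⁻¹ * ‖x j‖ ^ (v : ℝ) ≤ ‖a j‖ ∧ ‖a j‖ ≤ C * ‖x j‖ ^ (v : ℝ)

/-- JOB DOM (dominance). PROOF. `|L| → ∞` but slower than each power of `|x|`. By PC each `b_i` is `0` or `≍ |x|^(v_i)`; order the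
pairs `(v_i, i)` lexicographically: the largest one dominates all others, and it is at least `(v_d, d)`. -/
def S_DOM : Prop := ∀ (u : Ultrafilter ℕ) (x L : ℕ → ℂ), Tendsto (fun j => ‖x j‖) u atTop →
  Tendsto (fun j => ‖L j‖) u atTop → (∀ ε : ℝ, 0 < ε → ∀ᶠ j in (u : Filter ℕ), ‖L j‖ ≤ ‖x j‖ ^ ε) →
  ∀ (d : ℕ) (b : ℕ → ℕ → ℂ), (∀ i ≤ d, Alg u x (b i)) → (¬ ∀ᶠ j in (u : Filter ℕ), b d j = 0) →
  ∃ c : ℝ, 0 < c ∧ ∀ᶠ j in (u : Filter ℕ), c * ‖b d j‖ ≤ ‖∑ i ∈ Finset.range (d + 1), b i j * L j ^ i‖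

/-- JOB MIS (theorem `t_MIS : S_PSI → S_LEFT → S_CL → S_PC → S_DOM → S_MIS`).
PROOF. Suppose `α ≠ 0` at all `j`. Take an ultrafilter `u ≤ atTop`. All values of polynomials in `x, w, rg x, rg w` are `Alg u x` (CL;
`w`, `rg x`, `rg w` are by `E₁, E₂, E₃`). `|w| ≍ |x|^v`, `v > 0` rational. `|rg x|, |rg w| ≤ |x|^c`. For `u`-many `j` either
`|arg x| ≤ 3π/4` (type L) or `> 3π/4` (type S); the same for `w`. Type S: `|rg' x| ≥ |x|^N` for all `N` (LEFT). Type L: `rg x ≠ 0`,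
`rg' x = - rg x ψ(x)`, `ψ(x) = Λ + a_N + O(|x|^-N)`, `Λ = log x`, `a_N` in Alg; for `w`: `w^q / x^p → c ≠ 0` along `u`
(`v = p/q`, `q ≥ 1`; compactness), `w^q / x^p = c (1 + η)`, `η` in Alg, `η = 0` or `|η| ≍ |x|^(-r)`, `r > 0` (PC), hence
`q log w = p log x + log c + log(1+η) + 2πi k`, `k` an integer, bounded, so constant for `u`-many `j`; replace `log(1+η)` by its
Taylor polynomial: `ψ(w) = v Λ + b_N + O(|x|^-N)`, `b_N` in Alg. Now
(S,S): divide by `rg' x rg' w`. (S,L): `rg' x (α rg' w + β) + (γ rg' w + δ) = 0` so `α rg' w + β = O(|x|^-N)` for all `N`, but it is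
`-α rg(w) v Λ + (β - α rg(w) b_N) + O(|x|^(-N+c'))`: DOM (`d = 1`) gives `≥ c |α rg(w)|` (PC), contradiction for large `N`. (L,S)
alike. (L,L): `α rg x rg w (Λ + a)(vΛ + b) - β rg x (Λ + a) - γ rg w (vΛ + b) + δ = O(|x|^(-N+c'))`: DOM with `d = 2`. -/
def S_MIS : Prop := ∀ (x w : ℕ → ℂ), Tendsto (fun j => ‖x j‖) atTop atTop → Tendsto (fun j => ‖w j‖) atTop atTop →
  ∀ E₁ E₂ E₃ : Polynomial (Polynomial ℂ), E₁ ≠ 0 → E₂ ≠ 0 → E₃ ≠ 0 →
  (∀ j, E₁.evalEval (x j) (w j) = 0) → (∀ j, E₂.evalEval (x j) (rg (x j)) = 0) →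
  (∀ j, E₃.evalEval (x j) (rg (w j)) = 0) →
  ∀ α β γ δ : MvPolynomial (Fin 4) ℂ,
  (∀ j, MvPolynomial.eval ![x j, w j, rg (x j), rg (w j)] α * deriv rg (x j) * deriv rg (w j) +
      MvPolynomial.eval ![x j, w j, rg (x j), rg (w j)] β * deriv rg (x j) +
      MvPolynomial.eval ![x j, w j, rg (x j), rg (w j)] γ * deriv rg (w j) +
      MvPolynomial.eval ![x j, w j, rg (x j), rg (w j)] δ = 0) →
  ∃ j, MvPolynomial.eval ![x j, w j, rg (x j), rg (w j)] α = 0

/-- JOB TRN (`rg` is a transcendental function, strong form): for nonzero `E` in `ℂ[X][Y]` the zeros of `E(x, rg x)` have no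
accumulation point. PROOF. `E(x, rg x)` is entire; if it is identically zero then `rg` would be algebraic; but `rg` has
infinitely many zeros `-m` (so the coefficient of `Y^0` of an `E` of minimal degree in `Y` vanishes at all `-m`, is zero, divide by
`Y`). -/
def S_TRN : Prop := ∀ E : Polynomial (Polynomial ℂ), E ≠ 0 → ∀ x : ℂ, ¬ AccPt x (𝓟 {x : ℂ | E.evalEval x (rg x) = 0})

/-- the total derivative of `R (z, g z)` with respect to `z i` -/
noncomputable def dd (g : ℂ → ℂ) (R : Pol) (i : Fin 3) (z : Fin 3 → ℂ) : ℂ :=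
  MvPolynomial.eval (env g z) (MvPolynomial.pderiv (Sum.inl i) R) +
    MvPolynomial.eval (env g z) (MvPolynomial.pderiv (Sum.inr i) R) * deriv g (z i)

/-- JOB DET. PROOF. Chain rule along `t ↦ R k (φ t, g (φ t)) = 0` at `t = 0`: the matrix kills `v = fderiv φ 0 1 ≠ 0`. -/
def S_DET : Prop := ∀ (g : ℂ → ℂ), Differentiable ℂ g → ∀ (T : Set (Fin 3 → ℂ)) (R : Fin 3 → Pol),
  (∀ z ∈ T, ∀ k, MvPolynomial.eval (env g z) (R k) = 0) → ∀ z ∈ T, HasPiece 0 T z →
  Matrix.det (Matrix.of fun k i => dd g (R k) i z) = 0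

/-! ## Geometry -/

/-- closed, without isolated points, an immersed disc through all but countably many points -/
def Good {n : ℕ} (T : Set (Fin n → ℂ)) : Prop :=
  IsClosed T ∧ (∀ x ∈ T, x ∈ closure (T \ {x})) ∧
    ∃ B : Set (Fin n → ℂ), B.Countable ∧ ∀ x ∈ T, x ∉ B → HasPiece 0 T x

/-- near `z i = w₀` the set `T` is a finite union of graphs over the coordinate `z i` -/
def Loc {n : ℕ} (T : Set (Fin n → ℂ)) (i : Fin n) (w₀ : ℂ) : Prop :=
  ∃ (δ : ℝ) (N : ℕ) (Φ : Fin N → ℂ → (Fin n → ℂ)), 0 < δ ∧ (∀ k, AnalyticOnNhd ℂ (Φ k) (ball w₀ δ)) ∧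
    (∀ k, ∀ s ∈ ball w₀ δ, Φ k s i = s ∧ Φ k s ∈ T) ∧ ∀ z ∈ T, z i ∈ ball w₀ δ → ∃ k, z = Φ k (z i)

/-- JOB LOC. PROOF. Call `p ∈ T` open if there is an analytic disc `φ` in `T` through `p`, injective near `0` (`AX.inj_near`), with
`φ_i` not constant near `0`; then `φ s` is open too for small `s`, and `T` has open points near `p` over all points near `p_i`.
For `c ∈ U` outside the countable set `C = C₁ ∪ B_i` the fibre `T_c` is finite and all its points are open (if `φ_i` is constant,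
`T_c` contains the disc). `S_N = {c ∈ U | T_c has N+1 different open points}` is open. If all `S_N` are dense in `U`, Baire gives
`c ∈ U \ C` with infinite `T_c`. Take the least `N` such that `S_N` is not dense: there is an open `V ≠ ∅` in `U`, over each point
of which there are exactly `N` open points. Take `c ∈ V \ C`, discs `φ_1, …, φ_N` at the points of `T_c`; for `c'` near `c`
outside a countable set `(φ_k)_i` takes the value `c'` at a point with nonzero derivative (and only `N` open points: all of them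
are so obtained); by the inverse function theorem graphs `Φ_k` near `c'`, analytic, over a ball `ball c' δ ⊆ V`. Other points `p` of `T`
over `s` in this ball: near `p` there are uncountably many points of `T` (`T` perfect) not on the (closed) graphs, so one outside
`B` with a disc; if `φ_i` is not constant we get a point over some `s' ∉ C` not on the graphs, contradiction; if constant, the
fibre contains a disc, contradiction to the hypothesis on accumulation points. -/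
def S_LOC : Prop := ∀ (n : ℕ) (T : Set (Fin n → ℂ)) (i : Fin n) (U : Set ℂ), Good T → IsOpen U → U.Nonempty →
  (∀ c ∈ U, ∀ x, ¬ AccPt x (𝓟 {z ∈ T | z i = c})) →
  ∀ C₁ : Set ℂ, C₁.Countable → (∀ c ∈ U, c ∉ C₁ → {z ∈ T | z i = c}.Finite) → ∃ w₀ ∈ U, Loc T i w₀

/-- (helper69 does this one) the maximum principle with boundary `E` -/
def S_MAXB : Prop := ∀ (n : ℕ) (T B E O : Set (Fin n → ℂ)), IsClosed T → IsOpen O → T ⊆ O → IsClosed E → B.Countable →
  (∀ x ∈ T, x ∉ E → x ∈ closure (T \ {x})) → (∀ x ∈ T, x ∉ B → x ∉ E → HasDisc T x) →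
  ∀ G : (Fin n → ℂ) → ℂ, DifferentiableOn ℂ G O → (∀ η : ℝ, 0 < η → ∃ R, ∀ z ∈ T, R ≤ ‖z‖ → ‖G z‖ ≤ η) →
  ∀ M : ℝ, 0 ≤ M → (∀ z ∈ T, z ∈ E → ‖G z‖ ≤ M) → ∀ z ∈ T, ‖G z‖ ≤ M

/-- JOB DEP (theorem `t_DEP : S_MAXB → S_DEP`). PROOF. Shrink; move `s₀` inside its ball such that no point of `T` has `z i = w₀` and
`z j = s₀` (finitely many values `Φ_k(w₀)_j`). Let `q ≠ 0` be the leading coefficient of `Q`, `d` larger than its degrees. For large
`D`, `M := D + d`: choose `P ≠ 0` of degree `≤ D` in each variable such that for all branches `Φ_k` (over `w₀`, `N` of them) and `Ψ_l` (over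
`s₀`, `N'` of them) the functions `s ↦ (qP)(Φ_k(s)_i, Φ_k(s)_j)` at `w₀` and `(qP)(Ψ_l(s)_i, Ψ_l(s)_j)` at `s₀` vanish to order
`≥ M + 2`: `(N + N')(M + 2)` linear conditions, fewer than `(D + 1)²` unknowns. `F = qP / ((z_i - w₀)(z_j - s₀))^(M+1)` on
`T_ε = T ∩ {|z_i - w₀| ≥ ε, |z_j - s₀| ≥ ε}`, boundary `E = {|z_i - w₀| = ε or |z_j - s₀| = ε}`: `|F| ≤ C ε` on the boundary (`C`
independent of `ε`; there is no point of `T` with both small); `F → 0` at infinity on `T_ε`: `|F| ≤ C_ε / ((1+|z_i|)(1+|z_j|))`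
(degrees of `qP` at most `M`), and if `z_i, z_j` stay bounded and `z_k → ∞` then `q(z_i, z_j) → 0` because of `Q`. MAXB: `|F| ≤ C ε`,
`ε → 0`: `q P = 0` at all points of `T` with `z_i ≠ w₀`, `z_j ≠ s₀`; these are dense in `T` except where... replace `P` by
`q P (z_i - w₀) (z_j - s₀)`, which vanishes on all of `T`. (If `Q` has degree `0` in `Y` then `q` itself vanishes on `T`.) -/
def S_DEP : Prop := ∀ (T : Set (Fin 3 → ℂ)) (i j k : Fin 3), i ≠ j → i ≠ k → j ≠ k → Good T →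
  ∀ w₀ s₀ : ℂ, Loc T i w₀ → Loc T j s₀ → ∀ Q : Polynomial (MvPolynomial (Fin 2) ℂ), Q ≠ 0 →
  (∀ z ∈ T, (Q.map (MvPolynomial.eval ![z i, z j])).eval (z k) = 0) →
  ∃ P : MvPolynomial (Fin 2) ℂ, P ≠ 0 ∧ ∀ z ∈ T, MvPolynomial.eval ![z i, z j] P = 0

/-! ## Algebra -/

/-- JOB COM. PROOF. `Q` as a polynomial in `z_k` over the factorial ring of the others is primitive (irreducible, degree `> 0`); so its
coefficients have no common factor in `ℂ[z_i][z_j]`, by Gauss none in `ℂ(z_i)[z_j]`: a combination of them is a nonzero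
polynomial `e(z_i)`; the set is contained in the zeros of `e`. -/
def S_COM : Prop := ∀ (Q : MvPolynomial (Fin 3) ℂ) (i k : Fin 3), i ≠ k → Irreducible Q → Q.degreeOf k ≠ 0 →
  {a : ℂ | ∃ z : Fin 3 → ℂ, z i = a ∧ ∀ c, MvPolynomial.eval (Function.update z k c) Q = 0}.Countable

/-- algebraic independence of the variables `s` modulo `I` -/
def Indep {m : ℕ} (I : Ideal Pol) (s : Fin m → Fin 3 ⊕ Fin 3) : Prop :=
  ∀ P : MvPolynomial (Fin m) ℂ, MvPolynomial.rename s P ∈ I → P = 0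

/-- modulo `I` all polynomials are algebraic over the variables `s` -/
def AlgOver {m : ℕ} (I : Ideal Pol) (s : Fin m → Fin 3 ⊕ Fin 3) : Prop :=
  ∀ U : Pol, ∃ E : Polynomial (MvPolynomial (Fin m) ℂ), E ≠ 0 ∧
    (E.map (MvPolynomial.rename s : MvPolynomial (Fin m) ℂ →ₐ[ℂ] Pol).toRingHom).eval U ∈ I

/-- modulo `I` each `U ∉ I` divides a nonzero polynomial in the variables `s` -/
def NdOver {m : ℕ} (I : Ideal Pol) (s : Fin m → Fin 3 ⊕ Fin 3) : Prop :=
  ∀ U : Pol, U ∉ I → ∃ (A : MvPolynomial (Fin m) ℂ) (V : Pol), A ≠ 0 ∧ MvPolynomial.rename s A - U * V ∈ I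

/-- JOB TRD. PROOF. `A = Pol ⧸ I` is a domain; each variable is algebraic over `ℂ[s]` (two relations: the four variables `s, v` are
dependent, `s` is independent); so `A` is algebraic over `ℂ[s]`. NdOver: `IsAlgebraic.exists_nonzero_dvd`. -/
def S_TRD : Prop := ∀ I : Ideal Pol, I.IsPrime → ∀ (m : ℕ), (∀ e : Fin (m + 1) → Fin 3 ⊕ Fin 3, ¬ Indep I e) →
  ∀ s : Fin m → Fin 3 ⊕ Fin 3, Indep I s → AlgOver I s ∧ NdOver I s

/-- JOB MIN. PROOF. Among the `E` with coefficients in `ℂ[S]`, leading coefficient not in `I`, `E(v) ∈ I`, take one of minimal degree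
(delete leading coefficients in `I` first); the derivative with respect to `v` has smaller degree and leading coefficient
`deg · lead`, not in `I` (characteristic zero; degree `0` is impossible), so its value is not in `I`. -/
def S_MIN : Prop := ∀ I : Ideal Pol, I.IsPrime → ∀ (S : Set (Fin 3 ⊕ Fin 3)) (v : Fin 3 ⊕ Fin 3), v ∉ S →
  (∃ E : Polynomial Pol, (∀ l, E.coeff l ∈ MvPolynomial.supported ℂ S) ∧ (∃ l, E.coeff l ∉ I) ∧
    E.eval (MvPolynomial.X v) ∈ I) →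
  ∃ R ∈ I, R ∈ MvPolynomial.supported ℂ (insert v S) ∧ MvPolynomial.pderiv v R ∉ I

/-- JOB FIN (theorem `t_FIN : S_MIS → S_TRN → S_DET → S_COM → S_FIN`): the fibres of `z_i` on `T` are finite over generic points.
Notation: `x = z_j`, `w = z_k`, `s = z_i`, `y_i = rg z_i`.
PROOF. (0) For nonzero `A` in `ℂ[z_i, z_j, y_i]` (resp. with a further variable `Y`) the polynomial `A(c, X, rg c)` in `X` is nonzero for
all `c` outside a discrete set: some coefficient `a(z_i, y_i) ≠ 0` and TRN.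
(1) AlgOver for `![inl i, inl j, inr i]`, `U = X (inr j)`: `E(z_i, z_j, y_i)[y_j] = 0` on `T`, so for `c` in the open set `U₁` where
`E(c, X, rg c)[Y] ≠ 0` the values of `z_j` on the fibre over `c` have no accumulation point (TRN applied to this polynomial in
`X, Y`). The same for `z_k` with `![inl i, inl k, inr i]`. `U := U₁ ∩ U₂` is open, nonempty: the fibres over `U` have no accumulation
point.
(2) let `c ∈ U` be outside a countable set (COM for `Q`, zeros in (0) for the polynomials `E` below, and for `A` of NdOver of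
`α = ∂Q/∂z_i ∂P/∂y_j ∂P'/∂y_k`) and `T_c` infinite: there are different points `p_n` of `T_c` tending to infinity.
`|z_j(p_n)| → ∞` and `|z_k(p_n)| → ∞`: else `z_j` takes one value `b` at infinitely many `p_n` (no accumulation point of the values), then
`Q₀(c, b, z_k) = 0` for infinitely many `z_k`, so identically, excluded by COM.
(3) AlgOver for `U = X (inl k), X (inr j), X (inr k)` gives `E₁, E₂, E₃` at `z_i = c`. The determinant of DET vanishes on all of `T`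
(continuity; the points of `T` with a piece are dense in `T`, because `T` is perfect and `B` countable: Baire), with rows
`R 0 = Q`, `R 1 = P`, `R 2 = P'`: expanding, it is `α G_j G_k + β G_j + γ G_k + δ` (up to sign), `G_j = rg'(z_j)`, with `α, …, δ`
polynomials in `z, y` and `rg'(z_i)`. Substitute `z_i = c` and apply MIS to `x_n = z_j(p_n)`, `w_n = z_k(p_n)`, `n ≥ n₀`, where `α(p_n) ≠ 0` for
`n ≥ n₀`: NdOver: `α(p_n) = 0` implies `A(c, x_n, rg c) = 0`, only finitely many values `x_n`. Contradiction. -/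
def S_FIN : Prop := ∀ (T : Set (Fin 3 → ℂ)) (I : Ideal Pol), Good T → I.IsPrime →
  (∀ z ∈ T, ∀ R ∈ I, MvPolynomial.eval (env rg z) R = 0) →
  ∀ i j k : Fin 3, i ≠ j → i ≠ k → j ≠ k →
  AlgOver I ![Sum.inl i, Sum.inl j, Sum.inr i] → AlgOver I ![Sum.inl i, Sum.inl k, Sum.inr i] →
  NdOver I ![Sum.inl i, Sum.inl j, Sum.inr i] →
  ∀ Q₀ : MvPolynomial (Fin 3) ℂ, Irreducible Q₀ → MvPolynomial.rename Sum.inl Q₀ ∈ I →
  Q₀.degreeOf j ≠ 0 → Q₀.degreeOf k ≠ 0 →
  ∀ Q P P' : Pol, Q ∈ I → P ∈ I → P' ∈ I →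
  (∀ l, MvPolynomial.pderiv (Sum.inr l) Q = 0) → MvPolynomial.pderiv (Sum.inr k) P = 0 →
  MvPolynomial.pderiv (Sum.inr j) P' = 0 →
  MvPolynomial.pderiv (Sum.inl i) Q ∉ I → MvPolynomial.pderiv (Sum.inr j) P ∉ I →
  MvPolynomial.pderiv (Sum.inr k) P' ∉ I →
  ∃ U : Set ℂ, IsOpen U ∧ U.Nonempty ∧ (∀ c ∈ U, ∀ x, ¬ AccPt x (𝓟 {z ∈ T | z i = c})) ∧
    ∃ C₁ : Set ℂ, C₁.Countable ∧ ∀ c ∈ U, c ∉ C₁ → {z ∈ T | z i = c}.Finite

end Pool.Agent.J4H69.K1
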