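import Pool.Agent.J4H69.K1.Stm
import Pool.Agent.J4H69.AX.Cls
import Pool.Agent.J4H69.AX.Fun
import Pool.Agent.J4H69.AX.Gam

set_option autoImplicit false

/-!
The ideal of relations of a germ, and the closed set on which these relations hold.
-/

namespace Pool.Agent.J4H69.K1

open Filter Topology Set Metric
open Pool.Agent.J4H69.AX (HasDisc HasPiece)

lemma rg_diff : Differentiable ℂ rg := Complex.differentiable_one_div_Gamma

lemma env_an {D : Set ℂ} {f : Fin 3 → ℂ → ℂ} (hf : ∀ i, AnalyticOnNhd ℂ (f i) D) (R : Pol) :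
    AnalyticOnNhd ℂ (fun t => MvPolynomial.eval (env rg fun i => f i t) R) D := by
  refine AnalyticOnNhd.aeval_mvPolynomial (A := ℂ) (f := fun t => env rg fun i => f i t) ?_ R
  rintro (i | i)
  · exact hf i
  · exact fun t ht => (rg_diff.analyticAt (f i t)).comp (hf i t ht)

lemma env_cont (R : Pol) : Continuous (fun z : Fin 3 → ℂ => MvPolynomial.eval (env rg z) R) := by
  have h1 : Continuous (fun z : Fin 3 → ℂ => env rg z) := by
    refine continuous_pi fun σ => ?_
    rcases σ with i | i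
    · exact continuous_apply i
    · exact rg_diff.continuous.comp (continuous_apply i)
  exact (MvPolynomial.continuous_eval R).comp h1

lemma env_an' (R : Pol) : AnalyticOnNhd ℂ (fun z : Fin 3 → ℂ => MvPolynomial.eval (env rg z) R) univ := by
  refine AnalyticOnNhd.aeval_mvPolynomial (A := ℂ) (f := fun z : Fin 3 → ℂ => env rg z) ?_ R
  rintro (i | i)
  · exact (ContinuousLinearMap.proj (R := ℂ) (φ := fun _ : Fin 3 => ℂ) i).analyticOnNhd _
  · exact fun z _ => AnalyticAt.comp (g := rg) (f := fun z : Fin 3 → ℂ => z i)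
      (rg_diff.analyticAt (z i))
      ((ContinuousLinearMap.proj (R := ℂ) (φ := fun _ : Fin 3 => ℂ) i).analyticAt z)

/-- the relations between the functions `f_i`, `rg f_i` -/
def rel (D : Set ℂ) (f : Fin 3 → ℂ → ℂ) : Ideal Pol where
  carrier := {R | ∀ t ∈ D, MvPolynomial.eval (env rg fun i => f i t) R = 0}
  add_mem' := by
    intro a b ha hb t ht
    rw [map_add, ha t ht, hb t ht, add_zero]
  zero_mem' := by
    intro t _
    exact map_zero _
  smul_mem' := by
    intro c a ha t ht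
    rw [smul_eq_mul, map_mul, ha t ht, mul_zero]

lemma mem_rel {D : Set ℂ} {f : Fin 3 → ℂ → ℂ} {R : Pol} :
    R ∈ rel D f ↔ ∀ t ∈ D, MvPolynomial.eval (env rg fun i => f i t) R = 0 := Iff.rfl

lemma mul_zero_fun {D : Set ℂ} (hD : IsOpen D) (hp : IsPreconnected D) {u v : ℂ → ℂ}
    (hu : AnalyticOnNhd ℂ u D) (hv : AnalyticOnNhd ℂ v D) (h : ∀ t ∈ D, u t * v t = 0) :
    (∀ t ∈ D, u t = 0) ∨ ∀ t ∈ D, v t = 0 := by
  by_cases h1 : ∀ t ∈ D, u t = 0
  · exact Or.inl h1
  · right
    push Not at h1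
    obtain ⟨t₀, ht₀, h2⟩ := h1
    have h3 : ∀ᶠ t in 𝓝 t₀, v t = 0 := by
      filter_upwards [(hu t₀ ht₀).continuousAt.eventually_ne h2, hD.mem_nhds ht₀] with t h4 h5
      exact (mul_eq_zero.1 (h t h5)).resolve_left h4
    exact fun t ht => hv.eqOn_zero_of_preconnected_of_eventuallyEq_zero hp ht₀ h3 ht

lemma rel_prime {D : Set ℂ} (hD : IsOpen D) (hp : IsPreconnected D) (hne : D.Nonempty)
    {f : Fin 3 → ℂ → ℂ} (hf : ∀ i, AnalyticOnNhd ℂ (f i) D) : (rel D f).IsPrime := by
  rw [Ideal.isPrime_iff]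
  constructor
  · rw [Ideal.ne_top_iff_one]
    intro h
    obtain ⟨t, ht⟩ := hne
    have := h t ht
    rw [map_one] at this
    exact one_ne_zero this
  · intro a b hab
    exact mul_zero_fun hD hp (env_an hf a) (env_an hf b) fun t ht => by
      rw [← map_mul]
      exact hab t ht

/-- the closed set -/
theorem exists_T {D : Set ℂ} (hD : IsOpen D) {f : Fin 3 → ℂ → ℂ}
    (hf : ∀ i, AnalyticOnNhd ℂ (f i) D) {t₀ : ℂ} (ht₀ : t₀ ∈ D) {i₀ : Fin 3}
    (hder : deriv (f i₀) t₀ ≠ 0) :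
    ∃ T : Set (Fin 3 → ℂ), Good T ∧
      (∀ z ∈ T, ∀ R ∈ rel D f, MvPolynomial.eval (env rg z) R = 0) ∧
      ∀ᶠ t in 𝓝 t₀, (fun i => f i t) ∈ T := by
  set Z : Set (Fin 3 → ℂ) := {z | ∀ R : rel D f, MvPolynomial.eval (env rg z) R.1 = 0} with hZ
  have hZc : IsClosed Z := by
    have : Z = ⋂ R : rel D f, {z | MvPolynomial.eval (env rg z) R.1 = 0} := by
      ext z
      simp only [hZ, mem_iInter]
      rfl
    rw [this]
    exact isClosed_iInter fun R => isClosed_eq (env_cont R.1) continuous_const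
  have hZ' : {x : Fin 3 → ℂ | x ∈ univ ∧ ∀ R : rel D f, MvPolynomial.eval (env rg x) R.1 = 0} = Z := by
    ext z
    simp only [hZ, mem_univ, true_and]
  have hB := AX.thin_zero_countable (AX.thin_nopiece 0 3 (Fin 3) (Fintype.card_fin 3) (rel D f) univ
    (fun R z => MvPolynomial.eval (env rg z) R.1) isOpen_univ (fun R => env_an' R.1))
  rw [hZ'] at hB
  obtain ⟨V, T, hV, hT, hVT⟩ := exists_countable_union_perfect_of_isClosed hZc
  refine ⟨T, ⟨hT.closed, ?_, _, hB, ?_⟩, ?_, ?_⟩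
  · intro x hx
    have := hT.acc x hx
    rw [accPt_principal_iff_clusterPt] at this
    exact mem_closure_iff_clusterPt.2 this
  · intro x hx hxB
    have hxZ : x ∈ Z := hVT ▸ Or.inr hx
    have hpiece : HasPiece 0 Z x := by
      by_contra hcon
      exact hxB ⟨mem_univ _, hxZ, hcon⟩
    obtain ⟨φ, h1, h2, h3, h4⟩ := hpiece
    exact ⟨φ, h1, h2, h3, AX.piece_kernel hV hT.closed hVT h1 h3 h4⟩
  · intro z hz R hR
    have hzZ : z ∈ Z := hVT ▸ Or.inr hz
    exact hzZ ⟨R, hR⟩
  · -- the piece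
    set L : (Fin (0 + 1) → ℂ) →L[ℂ] ℂ :=
      ContinuousLinearMap.proj (R := ℂ) (φ := fun _ : Fin (0 + 1) => ℂ) 0 with hL
    have hLd : HasFDerivAt (fun s : Fin (0 + 1) → ℂ => t₀ + L s) L 0 := L.hasFDerivAt.const_add t₀
    have hLa : AnalyticAt ℂ (fun s : Fin (0 + 1) → ℂ => t₀ + L s) 0 :=
      analyticAt_const.add (L.analyticAt _)
    have hL0 : t₀ + L 0 = t₀ := by simp
    have hF : AnalyticAt ℂ (fun t i => f i t) t₀ := analyticAt_pi_iff.2 fun i => hf i t₀ ht₀
    set ψ : (Fin (0 + 1) → ℂ) → ℂ := fun s => t₀ + L s with hψ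
    have hψ0 : ψ 0 = t₀ := hL0
    have hF' : AnalyticAt ℂ (fun t i => f i t) (ψ 0) := by rw [hψ0]; exact hF
    set φ : (Fin (0 + 1) → ℂ) → (Fin 3 → ℂ) := (fun t i => f i t) ∘ ψ with hφ
    have hφa : AnalyticAt ℂ φ 0 := hF'.comp hLa
    have hφi : Function.Injective (fderiv ℂ φ 0) := by
      have h2 : HasFDerivAt (fun t i => f i t) (fderiv ℂ (fun t i => f i t) t₀) (ψ 0) := by
        rw [hψ0]
        exact hF.differentiableAt.hasFDerivAt
      have h1 : HasFDerivAt φ ((fderiv ℂ (fun t i => f i t) t₀).comp L) 0 := h2.comp 0 hLd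
      rw [h1.fderiv, injective_iff_map_eq_zero]
      intro s hs
      have h5 := congrFun hs i₀
      rw [ContinuousLinearMap.comp_apply] at h5
      have h6 : HasFDerivAt (fun t => f i₀ t)
          ((ContinuousLinearMap.proj (R := ℂ) (φ := fun _ : Fin 3 => ℂ) i₀).comp
            (fderiv ℂ (fun t i => f i t) t₀)) t₀ :=
        (hasFDerivAt_pi'.1 hF.differentiableAt.hasFDerivAt) i₀
      have h7 : deriv (f i₀) t₀ = (fderiv ℂ (fun t i => f i t) t₀ 1) i₀ := h6.hasDerivAt.deriv
      have h8 : (fderiv ℂ (fun t i => f i t) t₀) (L s) = L s • (fderiv ℂ (fun t i => f i t) t₀ 1) := by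
        have : L s = L s • (1 : ℂ) := by simp
        conv_lhs => rw [this]
        rw [map_smul]
      rw [h8, Pi.smul_apply, ← h7, smul_eq_mul, Pi.zero_apply] at h5
      have h9 : L s = 0 := (mul_eq_zero.1 h5).resolve_right hder
      funext j
      have : j = 0 := by
        apply Fin.ext
        have := j.2
        omega
      rw [this]
      exact h9
    have hφZ : ∀ᶠ s in 𝓝 (0 : Fin (0 + 1) → ℂ), φ s ∈ Z := by
      have h1 : Tendsto ψ (𝓝 0) (𝓝 t₀) := by
        have := hLa.continuousAt.tendsto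
        rwa [hψ0] at this
      filter_upwards [h1.eventually (hD.mem_nhds ht₀)] with s hs
      intro R
      exact R.2 _ hs
    have h10 := AX.piece_kernel hV hT.closed hVT hφa hφi hφZ
    have h11 : Tendsto (fun t : ℂ => (fun _ : Fin (0 + 1) => t - t₀)) (𝓝 t₀) (𝓝 0) := by
      have : Continuous (fun t : ℂ => (fun _ : Fin (0 + 1) => t - t₀)) := by fun_prop
      have h := this.tendsto t₀
      have e : (fun _ : Fin (0 + 1) => t₀ - t₀) = 0 := by
        funext j
        simp
      rwa [e] at h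
    filter_upwards [h11.eventually h10] with t ht
    have e : φ (fun _ => t - t₀) = fun i => f i t := by
      have e2 : ψ (fun _ => t - t₀) = t := by
        simp [hψ, hL]
      simp only [hφ, Function.comp, e2]
    rwa [e] at ht

/-- one of the functions `rg (f_j)` is transcendental over the field generated by the `f_i` -/
theorem one {n : ℕ} {D : Set ℂ} (hD : IsOpen D) (hp : IsPreconnected D) {f : Fin n → ℂ → ℂ}
    (hf : ∀ i, AnalyticOnNhd ℂ (f i) D) {t₀ : ℂ} (ht₀ : t₀ ∈ D) {i₀ : Fin n}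
    (hder : deriv (f i₀) t₀ ≠ 0) :
    ∃ j : Fin n, ∀ e : Polynomial (MvPolynomial (Fin n) ℂ),
      (∃ l, ∃ t ∈ D, MvPolynomial.eval (fun i => f i t) (e.coeff l) ≠ 0) →
      ∃ t ∈ D, (e.map (MvPolynomial.eval fun i => f i t)).eval (rg (f j t)) ≠ 0 := by
  classical
  set L : (Fin 1 → ℂ) →L[ℂ] ℂ :=
    ContinuousLinearMap.proj (R := ℂ) (φ := fun _ : Fin 1 => ℂ) 0 with hL
  set D' : Set (Fin 1 → ℂ) := L ⁻¹' D with hD'
  have hD'o : IsOpen D' := hD.preimage L.continuous
  set c : ℂ → (Fin 1 → ℂ) := fun t _ => t with hc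
  have hLc : ∀ t, L (c t) = t := fun t => rfl
  have hcL : ∀ s, c (L s) = s := by
    intro s
    funext j
    have : j = 0 := Subsingleton.elim _ _
    rw [this]
    rfl
  have hD'p : IsPreconnected D' := by
    have : D' = c '' D := by
      ext s
      constructor
      · intro hs
        exact ⟨L s, hs, hcL s⟩
      · rintro ⟨t, ht, rfl⟩
        exact ht
    rw [this]
    exact hp.image c (by fun_prop)
  have hf' : ∀ i, AnalyticOnNhd ℂ (fun s : Fin 1 → ℂ => f i (L s)) D' := by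
    intro i s hs
    exact AnalyticAt.comp (g := f i) (f := fun s : Fin 1 → ℂ => L s) (hf i (L s) hs) (L.analyticAt s)
  have hli : LinearIndependent ℂ (fun _ : Fin 1 => fderiv ℂ (fun s : Fin 1 → ℂ => f i₀ (L s)) (c t₀)) := by
    rw [linearIndependent_unique_iff]
    intro h
    have h1 : HasDerivAt (f i₀) (deriv (f i₀) t₀) (L (c t₀)) :=
      (hf i₀ t₀ ht₀).differentiableAt.hasDerivAt
    have h2 : HasFDerivAt (fun s : Fin 1 → ℂ => f i₀ (L s)) _ (c t₀) :=
      h1.hasFDerivAt.comp (c t₀) L.hasFDerivAt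
    rw [h2.fderiv] at h
    have h3 := DFunLike.congr_fun h (c 1)
    simp only [ContinuousLinearMap.comp_apply, hLc, zero_apply] at h3
    apply hder
    simpa using h3
  obtain ⟨J, hJ, hI⟩ := AX.functional (N := 1) (d := 1) hD'o hD'p hf'
    (g := fun _ => rg) (fun _ => AX.gam_dvb) (t₀ := c t₀) ht₀ (e := fun _ => i₀) hli
  obtain ⟨j, rfl⟩ := Finset.card_eq_one.1 hJ
  refine ⟨j, fun e ⟨l, t, ht, hl⟩ => ?_⟩
  set P : MvPolynomial ↥({j} : Finset (Fin n)) (MvPolynomial (Fin n) ℂ) :=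
    Polynomial.eval₂ MvPolynomial.C (MvPolynomial.X ⟨j, Finset.mem_singleton_self j⟩) e with hP
  have hev : ∀ s : Fin 1 → ℂ, ∀ y : ↥({j} : Finset (Fin n)) → ℂ,
      MvPolynomial.eval y (P.map (MvPolynomial.eval fun i => f i (L s))) =
        (e.map (MvPolynomial.eval fun i => f i (L s))).eval (y ⟨j, Finset.mem_singleton_self j⟩) := by
    intro s y
    rw [hP, MvPolynomial.eval_map, Polynomial.eval_map]
    have := Polynomial.hom_eval₂ e (MvPolynomial.C : MvPolynomial (Fin n) ℂ →+*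
      MvPolynomial ↥({j} : Finset (Fin n)) (MvPolynomial (Fin n) ℂ))
      (MvPolynomial.eval₂Hom (MvPolynomial.eval fun i => f i (L s)) y)
      (MvPolynomial.X ⟨j, Finset.mem_singleton_self j⟩)
    rw [MvPolynomial.coe_eval₂Hom] at this
    rw [this]
    congr 1
    · apply RingHom.ext
      intro r
      simp
    · simp
  have hne : ∃ s ∈ D', P.map (MvPolynomial.eval fun i => f i (L s)) ≠ 0 := by
    refine ⟨c t, ht, fun h0 => ?_⟩
    have h1 : e.map (MvPolynomial.eval fun i => f i (L (c t))) = 0 := by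
      apply Polynomial.funext
      intro r
      have h2 := hev (c t) (fun _ => r)
      rw [h0, map_zero] at h2
      rw [← h2, Polynomial.eval_zero]
    have h2 := congrArg (fun q => Polynomial.coeff q l) h1
    simp only [Polynomial.coeff_map, Polynomial.coeff_zero] at h2
    exact hl h2
  obtain ⟨s, hs, h⟩ := hI P hne
  rw [hev] at h
  exact ⟨L s, hs, h⟩

end Pool.Agent.J4H69.K1
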